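import Mathlib

set_option linter.unusedSectionVars false
set_option linter.unusedVariables false

/-!
# Kneser's theorem

`kneser`: for finite nonempty subsets `A`, `B` of an abelian group,
`|A| + |B| ≤ |A + B| + |stab (A + B)|`.
`kneser_quot`: the strong form, in the quotient by the stabiliser.
-/

open scoped Pointwise

namespace Helper24.Kneser

variable {G : Type*} [AddCommGroup G] [DecidableEq G]

/-- The stabiliser of a finite set under translations. -/
def stab (C : Finset G) : AddSubgroup G where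
  carrier := {x | ∀ c ∈ C, c + x ∈ C}
  add_mem' := by
    intro x y hx hy c hc
    rw [← add_assoc]
    exact hy _ (hx _ hc)
  zero_mem' := by
    intro c hc
    simpa using hc
  neg_mem' := by
    intro x hx c hc
    have hmap : ∀ a ∈ C, (fun c => c + x) a ∈ C := hx
    have hinj : Set.InjOn (fun c => c + x) (C : Set G) := by
      intro a _ b _ hab
      exact add_right_cancel hab
    have hsurj := Finset.surjOn_of_injOn_of_card_le (fun c => c + x) hmap hinj le_rfl
    obtain ⟨c', hc', hcc⟩ := hsurj (Finset.mem_coe.2 hc)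
    have : c + -x = c' := by
      rw [← hcc]; simp
    rw [this]
    exact hc'

lemma mem_stab {C : Finset G} {x : G} : x ∈ stab C ↔ ∀ c ∈ C, c + x ∈ C := Iff.rfl

lemma add_mem_iff {C : Finset G} {x : G} (hx : x ∈ stab C) (c : G) : c + x ∈ C ↔ c ∈ C := by
  constructor
  · intro h
    have := (stab C).neg_mem hx (c + x) h
    simpa using this
  · exact hx c

lemma finite_stab {C : Finset G} (hC : C.Nonempty) : Finite (stab C) := by
  obtain ⟨c, hc⟩ := hC
  have : Function.Injective (fun x : stab C => (⟨c + x.1, x.2 c hc⟩ : C)) := by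
    intro x y hxy
    apply Subtype.ext
    exact add_left_cancel (congrArg Subtype.val hxy :)
  exact Finite.of_injective _ this

/-- `C` is a union of cosets of `K`. -/
def Per (K : AddSubgroup G) (C : Finset G) : Prop := ∀ x ∈ K, ∀ c ∈ C, c + x ∈ C

lemma per_iff {K : AddSubgroup G} {C : Finset G} : Per K C ↔ K ≤ stab C :=
  ⟨fun h x hx c hc => h x hx c hc, fun h x hx c hc => h hx c hc⟩

/-- A periodic set is a union of cosets. -/
lemma card_eq_of_per {K : AddSubgroup G} [DecidableEq (G ⧸ K)] {C : Finset G} (h : Per K C) :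
    C.card = Nat.card K * (C.image (QuotientAddGroup.mk : G → G ⧸ K)).card := by
  rcases C.eq_empty_or_nonempty with rfl | hC
  · simp
  have := finite_stab hC
  have : Finite K := by
    apply Finite.of_injective (fun x : K => (⟨x.1, fun c hc => h _ x.2 c hc⟩ : stab C))
    intro x y hxy
    exact Subtype.ext (congrArg Subtype.val hxy :)
  rw [Finset.card_eq_sum_card_image (QuotientAddGroup.mk : G → G ⧸ K) C]
  rw [Finset.sum_const_nat (m := Nat.card K)]
  · ring
  · intro q hq
    obtain ⟨c, hc, rfl⟩ := Finset.mem_image.1 hq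
    have : Fintype K := Fintype.ofFinite K
    rw [Nat.card_eq_fintype_card, ← Finset.card_univ]
    symm
    refine Finset.card_bij (fun (x : K) _ => c + x.1) ?_ ?_ ?_
    · intro x _
      simp only [Finset.mem_filter]
      refine ⟨h _ x.2 c hc, ?_⟩
      rw [QuotientAddGroup.eq]
      simp
    · intro x _ y _ hxy
      exact Subtype.ext (add_left_cancel hxy)
    · intro b hb
      simp only [Finset.mem_filter] at hb
      refine ⟨⟨-c + b, ?_⟩, Finset.mem_univ _, by simp⟩
      exact QuotientAddGroup.eq.1 hb.2.symm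

lemma arith {k a a' b b' m₁ m₂ D₁ D₂ : ℕ} (hk : 0 < k) (ha : 0 < a) (hb' : 0 < b')
    (h₁ : m₁ = k * (a + a')) (h₂ : m₂ = k * (b + b')) (hD₁ : k * (a * b') ≤ D₁)
    (hD₂ : k * (a' * b) ≤ D₂) (hm : m₁ ≤ m₂) : m₁ ≤ D₁ + k ∨ m₂ ≤ D₂ + k := by
  rcases Nat.eq_zero_or_pos a' with rfl | ha'
  · left
    have : a ≤ a * b' := Nat.le_mul_of_pos_right a hb'
    have := Nat.mul_le_mul_left k this
    simp only [add_zero] at h₁
    omega
  rcases Nat.eq_zero_or_pos b with rfl | hb
  · left
    have : b' ≤ a * b' := Nat.le_mul_of_pos_left b' ha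
    have := Nat.mul_le_mul_left k this
    simp only [zero_add] at h₂
    omega
  by_contra hcon
  push Not at hcon
  obtain ⟨hc1, hc2⟩ := hcon
  have e1 : k * (a * b' + 1) < k * (a + a') := by
    calc k * (a * b' + 1) = k * (a * b') + k := by ring
      _ ≤ D₁ + k := by omega
      _ < m₁ := hc1
      _ = k * (a + a') := h₁
  have e2 : k * (a' * b + 1) < k * (b + b') := by
    calc k * (a' * b + 1) = k * (a' * b) + k := by ring
      _ ≤ D₂ + k := by omega
      _ < m₂ := hc2
      _ = k * (b + b') := h₂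
  have f1 := Nat.lt_of_mul_lt_mul_left e1
  have f2 := Nat.lt_of_mul_lt_mul_left e2
  obtain ⟨a, rfl⟩ := Nat.exists_eq_succ_of_ne_zero ha.ne'
  obtain ⟨b', rfl⟩ := Nat.exists_eq_succ_of_ne_zero hb'.ne'
  obtain ⟨a', rfl⟩ := Nat.exists_eq_succ_of_ne_zero ha'.ne'
  obtain ⟨b, rfl⟩ := Nat.exists_eq_succ_of_ne_zero hb.ne'
  simp only [Nat.succ_eq_add_one] at *
  nlinarith [Nat.zero_le (a * b'), Nat.zero_le (a' * b)]

/-- The map `(x, y) ↦ d + x + y` from subsets of two subgroups has fibres bounded by the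
intersection. -/
lemma card_mul_le {H₁ H₂ : AddSubgroup G} [Finite H₁] {X Y D : Finset G} (d : G)
    (hX : ∀ x ∈ X, x ∈ H₁) (hY : ∀ y ∈ Y, y ∈ H₂)
    (hD : ∀ x ∈ X, ∀ y ∈ Y, d + x + y ∈ D) :
    X.card * Y.card ≤ Nat.card ↥(H₁ ⊓ H₂) * D.card := by
  classical
  have : Finite ↥(H₁ ⊓ H₂) := by
    apply Finite.of_injective (fun x : ↥(H₁ ⊓ H₂) => (⟨x.1, x.2.1⟩ : H₁))
    intro x y hxy
    exact Subtype.ext (congrArg Subtype.val hxy :)
  have : Fintype ↥(H₁ ⊓ H₂) := Fintype.ofFinite _
  rw [← Finset.card_product]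
  have hle := Finset.card_le_mul_card_image (f := fun p : G × G => d + p.1 + p.2) (X ×ˢ Y)
    (Nat.card ↥(H₁ ⊓ H₂)) (by
      intro z hz
      obtain ⟨p, hp, rfl⟩ := Finset.mem_image.1 hz
      rw [Finset.mem_product] at hp
      rw [Nat.card_eq_fintype_card, ← Finset.card_univ]
      refine Finset.card_le_card_of_injOn
        (fun q => if hq : q.1 - p.1 ∈ H₁ ⊓ H₂ then (⟨q.1 - p.1, hq⟩ : ↥(H₁ ⊓ H₂)) else 0)
        (fun _ _ => Finset.mem_coe.2 (Finset.mem_univ _)) ?_
      have key : ∀ q ∈ (X ×ˢ Y).filter (fun q => d + q.1 + q.2 = d + p.1 + p.2),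
          q.1 - p.1 ∈ H₁ ⊓ H₂ := by
        intro q hq
        rw [Finset.mem_filter, Finset.mem_product] at hq
        refine ⟨H₁.sub_mem (hX _ hq.1.1) (hX _ hp.1), ?_⟩
        have : q.1 - p.1 = p.2 - q.2 := by
          have h := hq.2
          have h' : q.1 + q.2 = p.1 + p.2 := by
            have h2 : d + (q.1 + q.2) = d + (p.1 + p.2) := by
              rw [← add_assoc, ← add_assoc]; exact h
            exact add_left_cancel h2
          rw [sub_eq_sub_iff_add_eq_add, h', add_comm]
        rw [this]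
        exact H₂.sub_mem (hY _ hp.2) (hY _ hq.1.2)
      intro q hq q' hq' hqq
      have k1 := key q hq
      have k2 := key q' hq'
      simp only [k1, k2, dif_pos, Subtype.mk.injEq, sub_left_inj] at hqq
      have hq1 := (Finset.mem_filter.1 (Finset.mem_coe.1 hq)).2
      have hq2 := (Finset.mem_filter.1 (Finset.mem_coe.1 hq')).2
      have : q.2 = q'.2 := by
        have h3 : d + q.1 + q.2 = d + q.1 + q'.2 := by
          rw [hq1]; rw [hqq, hq2]
        exact add_left_cancel h3
      exact Prod.ext hqq this)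
  refine hle.trans (Nat.mul_le_mul_left _ (Finset.card_le_card ?_))
  intro z hz
  obtain ⟨p, hp, rfl⟩ := Finset.mem_image.1 hz
  rw [Finset.mem_product] at hp
  exact hD _ hp.1 _ hp.2

/-- One half of the union lemma. -/
lemma union_aux {C₁ C₂ : Finset G} (h12 : ¬ C₁ ⊆ C₂) (h21 : ¬ C₂ ⊆ C₁)
    (hm : Nat.card (stab C₁) ≤ Nat.card (stab C₂)) :
    C₁.card + Nat.card (stab C₁) ≤ (C₁ ∪ C₂).card + Nat.card (stab (C₁ ∪ C₂)) ∨
    C₂.card + Nat.card (stab C₂) ≤ (C₁ ∪ C₂).card + Nat.card (stab (C₁ ∪ C₂)) := by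
  classical
  obtain ⟨d, hd2, hd1⟩ := Finset.not_subset.1 h21
  obtain ⟨e, he1, he2⟩ := Finset.not_subset.1 h12
  have f1 : Finite (stab C₁) := finite_stab ⟨e, he1⟩
  have f2 : Finite (stab C₂) := finite_stab ⟨d, hd2⟩
  have f3 : Finite (stab (C₁ ∪ C₂)) := finite_stab ⟨e, Finset.mem_union_left _ he1⟩
  have : Fintype (stab C₁) := Fintype.ofFinite _
  have : Fintype (stab C₂) := Fintype.ofFinite _
  set K : AddSubgroup G := stab C₁ ⊓ stab C₂ with hK
  have fK : Finite K := by
    apply Finite.of_injective (fun x : K => (⟨x.1, x.2.1⟩ : stab C₁))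
    intro x y hxy
    exact Subtype.ext (congrArg Subtype.val hxy :)
  have hKle : Nat.card K ≤ Nat.card (stab (C₁ ∪ C₂)) := by
    refine Nat.card_le_card_of_injective
      (fun x : K => (⟨x.1, fun c hc => ?_⟩ : stab (C₁ ∪ C₂))) ?_
    · rcases Finset.mem_union.1 hc with hc | hc
      · exact Finset.mem_union_left _ (x.2.1 c hc)
      · exact Finset.mem_union_right _ (x.2.2 c hc)
    · intro x y hxy
      exact Subtype.ext (congrArg Subtype.val hxy :)
  have hKpos : 0 < Nat.card K := Nat.card_pos
  -- finsets of the subgroups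
  set F₁ : Finset G := Finset.univ.image (fun x : stab C₁ => x.1) with hF1
  set F₂ : Finset G := Finset.univ.image (fun x : stab C₂ => x.1) with hF2
  have memF1 : ∀ x, x ∈ F₁ ↔ x ∈ stab C₁ := by
    intro x
    rw [hF1, Finset.mem_image]
    exact ⟨fun ⟨y, _, hy⟩ => hy ▸ y.2, fun h => ⟨⟨x, h⟩, Finset.mem_univ _, rfl⟩⟩
  have memF2 : ∀ x, x ∈ F₂ ↔ x ∈ stab C₂ := by
    intro x
    rw [hF2, Finset.mem_image]
    exact ⟨fun ⟨y, _, hy⟩ => hy ▸ y.2, fun h => ⟨⟨x, h⟩, Finset.mem_univ _, rfl⟩⟩
  have cF1 : F₁.card = Nat.card (stab C₁) := by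
    rw [hF1, Finset.card_image_of_injective _ Subtype.val_injective, Finset.card_univ,
      Nat.card_eq_fintype_card]
  have cF2 : F₂.card = Nat.card (stab C₂) := by
    rw [hF2, Finset.card_image_of_injective _ Subtype.val_injective, Finset.card_univ,
      Nat.card_eq_fintype_card]
  set X := F₁.filter (fun x => d + x ∈ C₂) with hX
  set X' := F₁.filter (fun x => ¬ d + x ∈ C₂) with hX'
  set Y := F₂.filter (fun y => d + y ∈ C₁) with hY
  set Y' := F₂.filter (fun y => ¬ d + y ∈ C₁) with hY'
  have pX : Per K X := by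
    intro x hx c hc
    rw [hX, Finset.mem_filter, memF1] at hc ⊢
    refine ⟨(stab C₁).add_mem hc.1 hx.1, ?_⟩
    rw [← add_assoc]
    exact hx.2 _ hc.2
  have pX' : Per K X' := by
    intro x hx c hc
    rw [hX', Finset.mem_filter, memF1] at hc ⊢
    refine ⟨(stab C₁).add_mem hc.1 hx.1, ?_⟩
    rw [← add_assoc, add_mem_iff hx.2]
    exact hc.2
  have pY : Per K Y := by
    intro x hx c hc
    rw [hY, Finset.mem_filter, memF2] at hc ⊢
    refine ⟨(stab C₂).add_mem hc.1 hx.2, ?_⟩
    rw [← add_assoc]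
    exact hx.1 _ hc.2
  have pY' : Per K Y' := by
    intro x hx c hc
    rw [hY', Finset.mem_filter, memF2] at hc ⊢
    refine ⟨(stab C₂).add_mem hc.1 hx.2, ?_⟩
    rw [← add_assoc, add_mem_iff hx.1]
    exact hc.2
  have cX := card_eq_of_per pX
  have cX' := card_eq_of_per pX'
  have cY := card_eq_of_per pY
  have cY' := card_eq_of_per pY'
  set a := (X.image (QuotientAddGroup.mk : G → G ⧸ K)).card
  set a' := (X'.image (QuotientAddGroup.mk : G → G ⧸ K)).card
  set b := (Y.image (QuotientAddGroup.mk : G → G ⧸ K)).card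
  set b' := (Y'.image (QuotientAddGroup.mk : G → G ⧸ K)).card
  have hapos : 0 < X.card := Finset.card_pos.2 ⟨0, by
    rw [hX, Finset.mem_filter, memF1]; exact ⟨(stab C₁).zero_mem, by simpa using hd2⟩⟩
  have hb'pos : 0 < Y'.card := Finset.card_pos.2 ⟨0, by
    rw [hY', Finset.mem_filter, memF2]; exact ⟨(stab C₂).zero_mem, by simpa using hd1⟩⟩
  have ha : 0 < a := by
    rcases Nat.eq_zero_or_pos a with h | h
    · rw [h, mul_zero] at cX; omega
    · exact h
  have hb' : 0 < b' := by
    rcases Nat.eq_zero_or_pos b' with h | h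
    · rw [h, mul_zero] at cY'; omega
    · exact h
  have hm1 : Nat.card (stab C₁) = Nat.card K * (a + a') := by
    rw [← cF1, mul_add, ← cX, ← cX', hX, hX']
    exact (Finset.card_filter_add_card_filter_not _).symm
  have hm2 : Nat.card (stab C₂) = Nat.card K * (b + b') := by
    rw [← cF2, mul_add, ← cY, ← cY', hY, hY']
    exact (Finset.card_filter_add_card_filter_not _).symm
  have hD1 : X.card * Y'.card ≤ Nat.card K * (C₂ \ C₁).card := by
    apply card_mul_le (H₁ := stab C₁) (H₂ := stab C₂) d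
    · intro x hx
      rw [hX, Finset.mem_filter, memF1] at hx
      exact hx.1
    · intro y hy
      rw [hY', Finset.mem_filter, memF2] at hy
      exact hy.1
    · intro x hx y hy
      rw [hX, Finset.mem_filter, memF1] at hx
      rw [hY', Finset.mem_filter, memF2] at hy
      rw [Finset.mem_sdiff]
      refine ⟨hy.1 _ hx.2, ?_⟩
      have : d + x + y = d + y + x := by abel
      rw [this, add_mem_iff hx.1]
      exact hy.2
  have hD2 : X'.card * Y.card ≤ Nat.card K * (C₁ \ C₂).card := by
    apply card_mul_le (H₁ := stab C₁) (H₂ := stab C₂) d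
    · intro x hx
      rw [hX', Finset.mem_filter, memF1] at hx
      exact hx.1
    · intro y hy
      rw [hY, Finset.mem_filter, memF2] at hy
      exact hy.1
    · intro x hx y hy
      rw [hX', Finset.mem_filter, memF1] at hx
      rw [hY, Finset.mem_filter, memF2] at hy
      rw [Finset.mem_sdiff]
      refine ⟨?_, ?_⟩
      · have : d + x + y = d + y + x := by abel
        rw [this]
        exact hx.1 _ hy.2
      · rw [add_mem_iff hy.1]
        exact hx.2
  have hD1' : Nat.card K * (a * b') ≤ (C₂ \ C₁).card := by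
    apply Nat.le_of_mul_le_mul_left _ hKpos
    calc Nat.card K * (Nat.card K * (a * b')) = (Nat.card K * a) * (Nat.card K * b') := by ring
      _ = X.card * Y'.card := by rw [cX, cY']
      _ ≤ _ := hD1
  have hD2' : Nat.card K * (a' * b) ≤ (C₁ \ C₂).card := by
    apply Nat.le_of_mul_le_mul_left _ hKpos
    calc Nat.card K * (Nat.card K * (a' * b)) = (Nat.card K * a') * (Nat.card K * b) := by ring
      _ = X'.card * Y.card := by rw [cX', cY]
      _ ≤ _ := hD2
  have hu1 : (C₁ ∪ C₂).card = C₁.card + (C₂ \ C₁).card := by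
    have := Finset.card_sdiff_add_card C₂ C₁
    rw [Finset.union_comm C₁ C₂]; omega
  have hu2 : (C₁ ∪ C₂).card = C₂.card + (C₁ \ C₂).card := by
    have := Finset.card_sdiff_add_card C₁ C₂
    omega
  rcases arith hKpos ha hb' hm1 hm2 hD1' hD2' hm with h | h
  · left; omega
  · right; omega

lemma union_lemma {C₁ C₂ : Finset G} {N : ℕ} (h12 : ¬ C₁ ⊆ C₂) (h21 : ¬ C₂ ⊆ C₁)
    (h1 : N ≤ C₁.card + Nat.card (stab C₁)) (h2 : N ≤ C₂.card + Nat.card (stab C₂)) :
    N ≤ (C₁ ∪ C₂).card + Nat.card (stab (C₁ ∪ C₂)) := by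
  rcases le_total (Nat.card (stab C₁)) (Nat.card (stab C₂)) with h | h
  · rcases union_aux h12 h21 h with h' | h' <;> omega
  · have := union_aux h21 h12 h
    rw [Finset.union_comm] at this
    rcases this with h' | h' <;> omega

lemma cover_lemma {C : Finset G} {N : ℕ} (hC : C.Nonempty)
    (h : ∀ c ∈ C, ∃ D ⊆ C, c ∈ D ∧ N ≤ D.card + Nat.card (stab D)) :
    N ≤ C.card + Nat.card (stab C) := by
  classical
  have key : ∀ S : Finset G, S ⊆ C → S.Nonempty →
      ∃ D, S ⊆ D ∧ D ⊆ C ∧ N ≤ D.card + Nat.card (stab D) := by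
    intro S
    induction S using Finset.induction_on with
    | empty => intro _ h; exact absurd h (by simp)
    | insert c S hcS ih =>
      intro hS _
      have hcC : c ∈ C := hS (Finset.mem_insert_self _ _)
      obtain ⟨Dc, hDc, hcDc, hN⟩ := h c hcC
      rcases S.eq_empty_or_nonempty with rfl | hne
      · exact ⟨Dc, by simpa using hcDc, hDc, hN⟩
      obtain ⟨D, hSD, hDC, hND⟩ := ih (fun x hx => hS (Finset.mem_insert_of_mem hx)) hne
      by_cases hc : c ∈ D
      · exact ⟨D, Finset.insert_subset hc hSD, hDC, hND⟩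
      by_cases hsub : D ⊆ Dc
      · exact ⟨Dc, Finset.insert_subset hcDc (hSD.trans hsub), hDc, hN⟩
      refine ⟨D ∪ Dc, ?_, Finset.union_subset hDC hDc, ?_⟩
      · refine Finset.insert_subset (Finset.mem_union_right _ hcDc) ?_
        exact hSD.trans Finset.subset_union_left
      · exact union_lemma hsub (fun hh => hc (hh hcDc)) hND hN
  obtain ⟨D, h1, h2, h3⟩ := key C le_rfl hC
  rw [show C = D from Finset.Subset.antisymm h1 h2]
  exact h3

lemma local_lemma (n : ℕ) : ∀ (A B : Finset G) (a b : G), B.card = n → a ∈ A → b ∈ B →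
    ∃ D ⊆ A + B, a + b ∈ D ∧ A.card + B.card ≤ D.card + Nat.card (stab D) := by
  classical
  induction n using Nat.strong_induction_on with
  | _ n ih =>
  intro A B a b hn ha hb
  by_cases hcase : ∀ e ∈ A, ∀ x ∈ B, e + x - b ∈ A
  · refine ⟨A + B, le_rfl, Finset.add_mem_add ha hb, ?_⟩
    have hAB : A + B = A.image (fun c => c + b) := by
      ext z
      rw [Finset.mem_add, Finset.mem_image]
      constructor
      · rintro ⟨e, he, x, hx, rfl⟩
        exact ⟨e + x - b, hcase e he x hx, by abel⟩
      · rintro ⟨c, hc, rfl⟩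
        exact ⟨c, hc, b, hb, rfl⟩
    have hcard : (A + B).card = A.card := by
      rw [hAB, Finset.card_image_of_injective _ (add_left_injective b)]
    have hB : B.card ≤ Nat.card (stab (A + B)) := by
      have : Finite (stab (A + B)) := finite_stab ⟨a + b, Finset.add_mem_add ha hb⟩
      have : Fintype (stab (A + B)) := Fintype.ofFinite _
      have hmem : ∀ x ∈ B, x - b ∈ stab (A + B) := by
        intro x hx c hc
        rw [hAB, Finset.mem_image] at hc ⊢
        obtain ⟨c', hc', rfl⟩ := hc
        exact ⟨c' + x - b, hcase c' hc' x hx, by abel⟩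
      rw [Nat.card_eq_fintype_card, ← Finset.card_univ]
      refine Finset.card_le_card_of_injOn
        (fun x => if hx : x ∈ B then (⟨x - b, hmem x hx⟩ : stab (A + B)) else 0)
        (fun _ _ => Finset.mem_coe.2 (Finset.mem_univ _)) ?_
      intro x hx y hy hxy
      have hx' : x ∈ B := hx
      have hy' : y ∈ B := hy
      simpa [hx', hy'] using hxy
    omega
  · push Not at hcase
    obtain ⟨e, he, x, hx, hex⟩ := hcase
    set A₁ := A ∪ (B.filter (fun z => ¬ e + z - b ∈ A)).image (fun z => e + z - b) with hA₁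
    set B₁ := B.filter (fun z => e + z - b ∈ A) with hB₁
    have hb1 : b ∈ B₁ := by
      rw [hB₁, Finset.mem_filter]
      exact ⟨hb, by simpa using he⟩
    have hlt : B₁.card < n := by
      rw [← hn]
      apply Finset.card_lt_card
      rw [hB₁]
      refine Finset.ssubset_iff_subset_ne.2 ⟨Finset.filter_subset _ _, ?_⟩
      intro hh
      have := hh ▸ hx
      rw [Finset.mem_filter] at this
      exact hex this.2
    obtain ⟨D, hD1, hD2, hD3⟩ := ih B₁.card hlt A₁ B₁ a b rfl (Finset.mem_union_left _ ha) hb1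
    refine ⟨D, hD1.trans ?_, hD2, ?_⟩
    · intro z hz
      obtain ⟨u, hu, v, hv, rfl⟩ := Finset.mem_add.1 hz
      rw [hB₁, Finset.mem_filter] at hv
      rcases Finset.mem_union.1 hu with hu | hu
      · exact Finset.add_mem_add hu hv.1
      · obtain ⟨w, hw, rfl⟩ := Finset.mem_image.1 hu
        rw [Finset.mem_filter] at hw
        have : e + w - b + v = (e + v - b) + w := by abel
        rw [this]
        exact Finset.add_mem_add hv.2 hw.1
    · have hc1 : A₁.card = A.card + (B.filter (fun z => ¬ e + z - b ∈ A)).card := by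
        rw [hA₁, Finset.card_union_of_disjoint, Finset.card_image_of_injective]
        · intro y z hyz
          have : e + y - b = e + z - b := hyz
          simpa using this
        · rw [Finset.disjoint_left]
          intro y hy hy2
          obtain ⟨w, hw, rfl⟩ := Finset.mem_image.1 hy2
          exact (Finset.mem_filter.1 hw).2 hy
      have hc2 : B₁.card + (B.filter (fun z => ¬ e + z - b ∈ A)).card = B.card := by
        rw [hB₁]
        exact Finset.card_filter_add_card_filter_not _
      omega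

/-- **Kneser's theorem.** -/
theorem kneser {A B : Finset G} (hA : A.Nonempty) (hB : B.Nonempty) :
    A.card + B.card ≤ (A + B).card + Nat.card (stab (A + B)) := by
  apply cover_lemma (hA.add hB)
  intro c hc
  obtain ⟨a, ha, b, hb, rfl⟩ := Finset.mem_add.1 hc
  exact local_lemma _ A B a b rfl ha hb

/-- The image of a sumset in a quotient. -/
lemma image_add_quot (K : AddSubgroup G) [DecidableEq (G ⧸ K)] (A B : Finset G) :
    (A + B).image (QuotientAddGroup.mk : G → G ⧸ K) =
      A.image (QuotientAddGroup.mk : G → G ⧸ K) + B.image (QuotientAddGroup.mk : G → G ⧸ K) :=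
  Finset.image_add (QuotientAddGroup.mk' K)

lemma per_stab (C : Finset G) : Per (stab C) C := fun x hx c hc => hx c hc

/-- The image of a finite set in the quotient by its stabiliser has trivial stabiliser. -/
lemma stab_image_quot {C : Finset G} [DecidableEq (G ⧸ stab C)] :
    stab (C.image (QuotientAddGroup.mk : G → G ⧸ stab C)) = ⊥ := by
  rw [eq_bot_iff]
  intro q hq
  obtain ⟨x, rfl⟩ := QuotientAddGroup.mk_surjective q
  rw [AddSubgroup.mem_bot, QuotientAddGroup.eq_zero_iff]
  intro c hc
  have h1 := hq _ (Finset.mem_image_of_mem _ hc)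
  obtain ⟨c', hc', h2⟩ := Finset.mem_image.1 h1
  rw [← QuotientAddGroup.mk_add, QuotientAddGroup.eq] at h2
  have h3 := per_stab C _ h2 c' hc'
  simpa using h3

/-- Kneser's theorem for a sumset with trivial stabiliser. -/
lemma kneser_bot {A B : Finset G} (hA : A.Nonempty) (hB : B.Nonempty)
    (h : stab (A + B) = ⊥) : A.card + B.card ≤ (A + B).card + 1 := by
  have := kneser hA hB
  rw [h] at this
  simpa using this

/-- Kneser's theorem, strong form: with `K` the stabiliser of `A + B`,
`|A / K| + |B / K| ≤ |(A + B) / K| + 1`. -/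
theorem kneser_quot {A B : Finset G} [DecidableEq (G ⧸ stab (A + B))]
    (hA : A.Nonempty) (hB : B.Nonempty) :
    (A.image (QuotientAddGroup.mk : G → G ⧸ stab (A + B))).card +
      (B.image (QuotientAddGroup.mk : G → G ⧸ stab (A + B))).card ≤
      ((A + B).image (QuotientAddGroup.mk : G → G ⧸ stab (A + B))).card + 1 := by
  rw [image_add_quot]
  apply kneser_bot (hA.image _) (hB.image _)
  rw [← image_add_quot]
  exact stab_image_quot

lemma stab_le_add (A B : Finset G) : stab A ≤ stab (A + B) := by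
  intro x hx c hc
  obtain ⟨a, ha, b, hb, rfl⟩ := Finset.mem_add.1 hc
  have : a + b + x = (a + x) + b := by abel
  rw [this]
  exact Finset.add_mem_add (hx a ha) hb

lemma nsmul_nonempty {Y : Finset G} (hY : Y.Nonempty) (j : ℕ) : (j • Y).Nonempty := by
  induction j with
  | zero => rw [zero_nsmul]; exact ⟨0, Finset.mem_zero.2 rfl⟩
  | succ j ih => rw [succ_nsmul]; exact ih.add hY

lemma stab_nsmul_mono {Y : Finset G} {j h : ℕ} (hjh : j ≤ h) : stab (j • Y) ≤ stab (h • Y) := by
  obtain ⟨i, rfl⟩ := Nat.exists_eq_add_of_le hjh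
  rw [add_nsmul]
  exact stab_le_add _ _

/-- Iterated Kneser: if `h Y` has trivial stabiliser then the sizes of `j Y`, `j ≤ h`, grow by at
least `|Y| - 1` in each step. -/
lemma step {Y : Finset G} (hY : Y.Nonempty) {h : ℕ} (hs : stab (h • Y) = ⊥) {j : ℕ}
    (hj : j + 1 ≤ h) : (j • Y).card + Y.card ≤ ((j + 1) • Y).card + 1 := by
  rw [succ_nsmul]
  apply kneser_bot (nsmul_nonempty hY j) hY
  rw [eq_bot_iff, ← hs, ← succ_nsmul]
  exact stab_nsmul_mono hj

lemma card_nsmul_ge {Y : Finset G} (hY : Y.Nonempty) {h : ℕ} (hs : stab (h • Y) = ⊥) {j : ℕ}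
    (hj : j ≤ h) : j * (Y.card - 1) + 1 ≤ (j • Y).card := by
  induction j with
  | zero => rw [zero_nsmul]; simp
  | succ j ih =>
    have h1 := ih (by omega)
    have h2 := step hY hs hj
    have h3 : 0 < Y.card := Finset.card_pos.2 hY
    rw [add_mul, one_mul]
    omega

lemma card_nsmul_sub {Y : Finset G} (hY : Y.Nonempty) {h : ℕ} (hs : stab (h • Y) = ⊥) {j i : ℕ}
    (hj : j + i ≤ h) : (j • Y).card + i * (Y.card - 1) ≤ ((j + i) • Y).card := by
  induction i with
  | zero => simp
  | succ i ih =>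
    have h1 := ih (by omega)
    have h2 := step hY hs (j := j + i) (by omega)
    have h3 : 0 < Y.card := Finset.card_pos.2 hY
    rw [← add_assoc, add_mul, one_mul]
    omega

end Helper24.Kneser
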