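import Mathlib

set_option autoImplicit false

namespace Pool.Agent.Helper24.StarSubdiv

open Finset

/-- `S` is 1-nearly independent in `G`: the subgraph of `G` induced by `S` has exactly one
edge. -/
def OneNearlyIndep {V : Type*} (G : SimpleGraph V) (S : Finset V) : Prop :=
  (G.induce (S : Set V)).edgeSet.ncard = 1

open Classical in
/-- The finite set of all 1-nearly independent sets of `G`. -/
noncomputable def oneNearlyIndepSets {V : Type*} [Fintype V] (G : SimpleGraph V) :
    Finset (Finset V) :=
  {S : Finset V | OneNearlyIndep G S}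

/-- `sigma1 G`, the number of 1-nearly independent sets of `G`. -/
noncomputable def sigma1 {V : Type*} [Fintype V] (G : SimpleGraph V) : ℕ :=
  (oneNearlyIndepSets G).card

/-- `totalSize G`, the sum of the cardinalities of the 1-nearly independent sets of `G`. -/
noncomputable def totalSize {V : Type*} [Fintype V] (G : SimpleGraph V) : ℕ :=
  ∑ S ∈ oneNearlyIndepSets G, S.card

/-- The average cardinality of a 1-nearly independent set of `G`. -/
noncomputable def av1 {V : Type*} [Fintype V] (G : SimpleGraph V) : ℚ :=
  (totalSize G : ℚ) / (sigma1 G : ℚ)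

/-- The graph `R_n` on `Fin n`: the vertex `0` is adjacent to `1, …, n - 2`, and the vertex
`n - 2` is adjacent to `n - 1`. For `n ≥ 4` this is the star on `n - 1` vertices with one new
vertex joined to one of its leaves. -/
def R (n : ℕ) : SimpleGraph (Fin n) :=
  SimpleGraph.fromRel fun i j =>
    ((i : ℕ) = 0 ∧ (j : ℕ) ≠ n - 1) ∨ ((i : ℕ) = n - 2 ∧ (j : ℕ) = n - 1)

end Pool.Agent.Helper24.StarSubdiv
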