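import Mathlib
import Pool.Agent.Helper24.StarSubdivDefs

set_option autoImplicit false

namespace Pool.Agent.Helper24.StarSubdiv

open Finset

section general
variable {V : Type*} [Fintype V] [DecidableEq V]

theorem oneNearlyIndep_iff (G : SimpleGraph V) (S : Finset V) :
    OneNearlyIndep G S ↔ ∃ u v, G.Adj u v ∧ u ∈ S ∧ v ∈ S ∧
      ∀ x y, G.Adj x y → x ∈ S → y ∈ S → (x = u ∧ y = v) ∨ (x = v ∧ y = u) := by
  unfold OneNearlyIndep
  rw [Set.ncard_eq_one]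
  constructor
  · rintro ⟨e, he⟩
    induction e using Sym2.ind with
    | _ a b =>
      have hab : (G.induce (S : Set V)).Adj a b := by
        have : s(a, b) ∈ (G.induce (S : Set V)).edgeSet := by rw [he]; rfl
        simpa using this
      refine ⟨a, b, by simpa using hab, by simp, by simp, ?_⟩
      intro x y hxy hx hy
      have h1 : s((⟨x, by simpa using hx⟩ : (S : Set V)), (⟨y, by simpa using hy⟩ : (S : Set V))) ∈
          (G.induce (S : Set V)).edgeSet := by simpa using hxy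
      rw [he, Set.mem_singleton_iff, Sym2.eq_iff] at h1
      rcases h1 with ⟨h1, h2⟩ | ⟨h1, h2⟩
      · left; exact ⟨congrArg Subtype.val h1, congrArg Subtype.val h2⟩
      · right; exact ⟨congrArg Subtype.val h1, congrArg Subtype.val h2⟩
  · rintro ⟨u, v, huv, hu, hv, h⟩
    refine ⟨s((⟨u, by simpa using hu⟩ : (S : Set V)), (⟨v, by simpa using hv⟩ : (S : Set V))), ?_⟩
    ext e
    induction e using Sym2.ind with
    | _ a b =>
      rw [Set.mem_singleton_iff, Sym2.eq_iff]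
      constructor
      · intro hab
        have hab' : G.Adj a b := by simpa using hab
        rcases h a b hab' (by simp) (by simp) with ⟨h1, h2⟩ | ⟨h1, h2⟩
        · left; exact ⟨Subtype.ext h1, Subtype.ext h2⟩
        · right; exact ⟨Subtype.ext h1, Subtype.ext h2⟩
      · rintro (⟨h1, h2⟩ | ⟨h1, h2⟩)
        · subst h1; subst h2; simpa using huv
        · subst h1; subst h2; simpa using huv.symm

theorem mem_oneNearlyIndepSets (G : SimpleGraph V) (S : Finset V) :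
    S ∈ oneNearlyIndepSets G ↔ ∃ u v, G.Adj u v ∧ u ∈ S ∧ v ∈ S ∧
      ∀ x y, G.Adj x y → x ∈ S → y ∈ S → (x = u ∧ y = v) ∨ (x = v ∧ y = u) := by
  simp only [oneNearlyIndepSets, Finset.mem_filter, Finset.mem_univ, true_and, oneNearlyIndep_iff]

/-- vertices adjacent to neither `u` nor `v` -/
def farSet (G : SimpleGraph V) [DecidableRel G.Adj] (u v : V) : Finset V :=
  {z : V | ¬ G.Adj u z ∧ ¬ G.Adj v z}

/-- independent subsets of `W` -/
def indepIn (G : SimpleGraph V) [DecidableRel G.Adj] (W : Finset V) : Finset (Finset V) :=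
  W.powerset.filter (fun I => ∀ x ∈ I, ∀ y ∈ I, ¬ G.Adj x y)

theorem mem_indepIn {G : SimpleGraph V} [DecidableRel G.Adj] {W I : Finset V} :
    I ∈ indepIn G W ↔ I ⊆ W ∧ ∀ x ∈ I, ∀ y ∈ I, ¬ G.Adj x y := by
  unfold indepIn; simp

/-- Double counting over ordered adjacent pairs. -/
theorem two_mul_sum (G : SimpleGraph V) [DecidableRel G.Adj] (F : ℕ → ℤ) :
    2 * ∑ S ∈ oneNearlyIndepSets G, F S.card =
      ∑ x : V, ∑ y ∈ G.neighborFinset x, ∑ I ∈ indepIn G (farSet G x y), F (I.card + 2) := by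
  classical
  have step1 : ∀ S ∈ oneNearlyIndepSets G, 2 * F S.card =
      ∑ x : V, ∑ y ∈ G.neighborFinset x, if x ∈ S ∧ y ∈ S then F S.card else 0 := by
    intro S hS
    rw [mem_oneNearlyIndepSets] at hS
    obtain ⟨u, v, huv, hu, hv, h⟩ := hS
    have huv' : u ≠ v := huv.ne
    have : ∀ x : V, (∑ y ∈ G.neighborFinset x, if x ∈ S ∧ y ∈ S then F S.card else 0) =
        (if x = u then F S.card else 0) + (if x = v then F S.card else 0) := by
      intro x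
      by_cases hxu : x = u
      · subst hxu
        rw [if_pos rfl, if_neg huv', add_zero]
        rw [Finset.sum_eq_single v]
        · rw [if_pos ⟨hu, hv⟩]
        · intro b hb hbv
          rw [if_neg]
          rintro ⟨_, hb2⟩
          rw [SimpleGraph.mem_neighborFinset] at hb
          rcases h x b hb hu hb2 with ⟨_, h2⟩ | ⟨h1, _⟩
          · exact hbv h2
          · exact huv' h1
        · intro hh
          exact absurd ((SimpleGraph.mem_neighborFinset _ _ _).2 huv) hh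
      · by_cases hxv : x = v
        · subst hxv
          rw [if_neg hxu, if_pos rfl, zero_add]
          rw [Finset.sum_eq_single u]
          · rw [if_pos ⟨hv, hu⟩]
          · intro b hb hbv
            rw [if_neg]
            rintro ⟨_, hb2⟩
            rw [SimpleGraph.mem_neighborFinset] at hb
            rcases h x b hb hv hb2 with ⟨h1, _⟩ | ⟨_, h2⟩
            · exact hxu h1
            · exact hbv h2
          · intro hh
            exact absurd ((SimpleGraph.mem_neighborFinset _ _ _).2 huv.symm) hh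
        · rw [if_neg hxu, if_neg hxv, add_zero]
          apply Finset.sum_eq_zero
          intro b hb
          rw [if_neg]
          rintro ⟨hx, hb2⟩
          rw [SimpleGraph.mem_neighborFinset] at hb
          rcases h x b hb hx hb2 with ⟨h1, _⟩ | ⟨h1, _⟩
          · exact hxu h1
          · exact hxv h1
    rw [Finset.sum_congr rfl (fun x _ => this x), Finset.sum_add_distrib]
    simp [two_mul]
  rw [Finset.mul_sum, Finset.sum_congr rfl step1, Finset.sum_comm]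
  refine Finset.sum_congr rfl (fun x _ => ?_)
  rw [Finset.sum_comm]
  refine Finset.sum_congr rfl (fun y hy => ?_)
  rw [SimpleGraph.mem_neighborFinset] at hy
  rw [← Finset.sum_filter]
  refine Finset.sum_bij' (fun S _ => (S.erase x).erase y) (fun I _ => insert x (insert y I)) ?_ ?_ ?_ ?_ ?_
  · intro S hS
    rw [Finset.mem_filter, mem_oneNearlyIndepSets] at hS
    obtain ⟨⟨u, v, huv, hu, hv, h⟩, hx, hyS⟩ := hS
    rw [mem_indepIn]
    -- edge in S is {x,y}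
    have hxy := h x y hy hx hyS
    have key : ∀ a b, G.Adj a b → a ∈ S → b ∈ S → (a = x ∧ b = y) ∨ (a = y ∧ b = x) := by
      intro a b hab ha hb
      have := h a b hab ha hb
      rcases hxy with ⟨rfl, rfl⟩ | ⟨rfl, rfl⟩
      · exact this
      · rcases this with h' | h'
        · exact Or.inr h'
        · exact Or.inl h'
    constructor
    · intro z hz
      simp only [Finset.mem_erase] at hz
      obtain ⟨hzy, hzx, hzS⟩ := hz
      simp only [farSet, Finset.mem_filter, Finset.mem_univ, true_and]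
      constructor
      · intro hxz
        rcases key x z hxz hx hzS with ⟨_, h2⟩ | ⟨_, h2⟩
        · exact hzy h2
        · exact hzx h2
      · intro hyz
        rcases key y z hyz hyS hzS with ⟨_, h2⟩ | ⟨_, h2⟩
        · exact hzy h2
        · exact hzx h2
    · intro a ha b hb hab
      simp only [Finset.mem_erase] at ha hb
      rcases key a b hab ha.2.2 hb.2.2 with ⟨h1, _⟩ | ⟨h1, _⟩
      · exact ha.2.1 h1
      · exact ha.1 h1
  · intro I hI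
    rw [mem_indepIn] at hI
    obtain ⟨hI1, hI2⟩ := hI
    rw [Finset.mem_filter, mem_oneNearlyIndepSets]
    refine ⟨⟨x, y, hy, by simp, by simp, ?_⟩, by simp, by simp⟩
    intro a b hab ha hb
    simp only [Finset.mem_insert] at ha hb
    have hfar : ∀ z ∈ I, ¬ G.Adj x z ∧ ¬ G.Adj y z := by
      intro z hz
      have := hI1 hz
      simpa [farSet] using this
    rcases ha with rfl | rfl | ha <;> rcases hb with rfl | rfl | hb
    · exact absurd hab (G.loopless.irrefl _)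
    · exact Or.inl ⟨rfl, rfl⟩
    · exact absurd hab (hfar b hb).1
    · exact Or.inr ⟨rfl, rfl⟩
    · exact absurd hab (G.loopless.irrefl _)
    · exact absurd hab (hfar b hb).2
    · exact absurd hab.symm (hfar a ha).1
    · exact absurd hab.symm (hfar a ha).2
    · exact absurd hab (hI2 a ha b hb)
  · intro S hS
    rw [Finset.mem_filter] at hS
    have hyS : y ∈ S.erase x := Finset.mem_erase.2 ⟨hy.ne', hS.2.2⟩
    rw [Finset.insert_erase hyS, Finset.insert_erase hS.2.1]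
  · intro I hI
    rw [mem_indepIn] at hI
    have hfar : ∀ z ∈ I, ¬ G.Adj x z ∧ ¬ G.Adj y z := by
      intro z hz
      have := hI.1 hz
      simpa [farSet] using this
    have hxI : x ∉ I := fun hx => (hfar x hx).2 hy.symm
    have hyI : y ∉ I := fun hx => (hfar y hx).1 hy
    rw [Finset.erase_insert, Finset.erase_insert hyI]
    simp [hy.ne, hxI]
  · intro S hS
    rw [Finset.mem_filter] at hS
    have hyS : y ∈ S.erase x := Finset.mem_erase.2 ⟨hy.ne', hS.2.2⟩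
    congr 1
    rw [Finset.card_erase_of_mem hyS, Finset.card_erase_of_mem hS.2.1]
    have : 2 ≤ S.card := by
      have h2 : ({x, y} : Finset V) ⊆ S := by
        intro z hz
        simp only [Finset.mem_insert, Finset.mem_singleton] at hz
        rcases hz with rfl | rfl
        · exact hS.2.1
        · exact hS.2.2
      calc 2 = ({x, y} : Finset V).card := (Finset.card_pair hy.ne).symm
        _ ≤ S.card := Finset.card_le_card h2
    omega


/-- the independent subsets of `W` containing `x` -/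
def indepThru (G : SimpleGraph V) [DecidableRel G.Adj] (W : Finset V) (x : V) :
    Finset (Finset V) := (indepIn G W).filter (fun I => x ∈ I)

theorem sum_card_indepIn (G : SimpleGraph V) [DecidableRel G.Adj] (W : Finset V) :
    ∑ I ∈ indepIn G W, I.card = ∑ x ∈ W, (indepThru G W x).card := by
  have h1 : ∀ I ∈ indepIn G W, I.card = ∑ x ∈ W, if x ∈ I then 1 else 0 := by
    intro I hI
    rw [mem_indepIn] at hI
    rw [Finset.card_eq_sum_ones, ← Finset.sum_filter]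
    refine Finset.sum_congr ?_ (fun _ _ => rfl)
    ext x
    simp only [Finset.mem_filter]
    exact ⟨fun h => ⟨hI.1 h, h⟩, fun h => h.2⟩
  rw [Finset.sum_congr rfl h1, Finset.sum_comm]
  refine Finset.sum_congr rfl (fun x _ => ?_)
  rw [indepThru, Finset.card_eq_sum_ones, Finset.sum_filter]

theorem erase_mem_indepIn {G : SimpleGraph V} [DecidableRel G.Adj] {W I : Finset V}
    (hI : I ∈ indepIn G W) (x : V) : I.erase x ∈ indepIn G W := by
  rw [mem_indepIn] at hI ⊢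
  exact ⟨(Finset.erase_subset _ _).trans hI.1,
    fun a ha b hb => hI.2 a (Finset.mem_of_mem_erase ha) b (Finset.mem_of_mem_erase hb)⟩

theorem two_mul_indepThru (G : SimpleGraph V) [DecidableRel G.Adj] (W : Finset V) (x : V) :
    2 * (indepThru G W x).card ≤ (indepIn G W).card := by
  have h := Finset.card_filter_add_card_filter_not (s := indepIn G W) (fun I => x ∈ I)
  have h2 : (indepThru G W x).card ≤ ((indepIn G W).filter (fun I => ¬ x ∈ I)).card := by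
    refine Finset.card_le_card_of_injOn (fun I => I.erase x) ?_ ?_
    · intro I hI
      simp only [indepThru, Finset.coe_filter, Set.mem_ofPred_eq] at hI ⊢
      exact ⟨erase_mem_indepIn hI.1 x, Finset.notMem_erase x I⟩
    · intro I hI J hJ hIJ
      simp only [indepThru, Finset.coe_filter, Set.mem_ofPred_eq] at hI hJ
      have := congrArg (fun K => insert x K) hIJ
      simpa [Finset.insert_erase hI.2, Finset.insert_erase hJ.2] using this
  unfold indepThru at *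
  omega

theorem three_mul_indepThru (G : SimpleGraph V) [DecidableRel G.Adj] (W : Finset V) (x y : V)
    (hxy : G.Adj x y) :
    3 * ((indepThru G W x).card + (indepThru G W y).card) ≤ 2 * (indepIn G W).card := by
  set C := (indepIn G W).filter (fun I => x ∉ I ∧ y ∉ I) with hC
  have key : ∀ a b : V, G.Adj a b →
      (indepThru G W a).card ≤ ((indepIn G W).filter (fun I => a ∉ I ∧ b ∉ I)).card := by
    intro a b hab
    refine Finset.card_le_card_of_injOn (fun I => I.erase a) ?_ ?_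
    · intro I hI
      simp only [indepThru, Finset.coe_filter, Set.mem_ofPred_eq] at hI ⊢
      refine ⟨erase_mem_indepIn hI.1 a, Finset.notMem_erase a I, ?_⟩
      intro hb
      have hb' := Finset.mem_of_mem_erase hb
      exact (mem_indepIn.1 hI.1).2 a hI.2 b hb' hab
    · intro I hI J hJ hIJ
      simp only [indepThru, Finset.coe_filter, Set.mem_ofPred_eq] at hI hJ
      have := congrArg (fun K => insert a K) hIJ
      simpa [Finset.insert_erase hI.2, Finset.insert_erase hJ.2] using this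
  have h1 : (indepThru G W x).card ≤ C.card := key x y hxy
  have h2 := key y x hxy.symm
  have h2' : ((indepIn G W).filter (fun I => y ∉ I ∧ x ∉ I)) = C := by
    rw [hC]; ext I; simp only [Finset.mem_filter]; tauto
  rw [h2'] at h2
  have h3 : (indepThru G W x).card + (indepThru G W y).card + C.card ≤ (indepIn G W).card := by
    rw [← Finset.card_union_of_disjoint, ← Finset.card_union_of_disjoint]
    · refine Finset.card_le_card ?_
      intro I hI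
      simp only [indepThru, hC, Finset.mem_union, Finset.mem_filter] at hI
      tauto
    · rw [Finset.disjoint_left]
      intro I hI hI2
      simp only [indepThru, hC, Finset.mem_union, Finset.mem_filter] at hI hI2
      tauto
    · rw [Finset.disjoint_left]
      intro I hI hI2
      simp only [indepThru, Finset.mem_filter] at hI hI2
      exact (mem_indepIn.1 hI.1).2 x hI.2 y hI2.2 hxy
  omega

theorem two_mul_sum_card (G : SimpleGraph V) [DecidableRel G.Adj] (W : Finset V) :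
    2 * ∑ I ∈ indepIn G W, I.card ≤ W.card * (indepIn G W).card := by
  rw [sum_card_indepIn, Finset.mul_sum]
  calc ∑ x ∈ W, 2 * (indepThru G W x).card ≤ ∑ _x ∈ W, (indepIn G W).card :=
        Finset.sum_le_sum (fun x _ => two_mul_indepThru G W x)
    _ = W.card * (indepIn G W).card := by rw [Finset.sum_const, smul_eq_mul]

theorem six_mul_sum_card (G : SimpleGraph V) [DecidableRel G.Adj] (W : Finset V) (x y : V)
    (hx : x ∈ W) (hy : y ∈ W) (hxy : G.Adj x y) :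
    6 * ∑ I ∈ indepIn G W, I.card + 2 * (indepIn G W).card ≤ 3 * W.card * (indepIn G W).card := by
  rw [sum_card_indepIn]
  have hyx : y ∈ W.erase x := Finset.mem_erase.2 ⟨hxy.ne', hy⟩
  rw [← Finset.add_sum_erase W _ hx, ← Finset.add_sum_erase (W.erase x) _ hyx]
  have h3 := three_mul_indepThru G W x y hxy
  have h2 : 2 * ∑ z ∈ (W.erase x).erase y, (indepThru G W z).card ≤
      ((W.erase x).erase y).card * (indepIn G W).card := by
    rw [Finset.mul_sum]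
    calc ∑ x ∈ (W.erase x).erase y, 2 * (indepThru G W x).card
          ≤ ∑ _x ∈ (W.erase x).erase y, (indepIn G W).card :=
          Finset.sum_le_sum (fun x _ => two_mul_indepThru G W x)
      _ = _ := by rw [Finset.sum_const, smul_eq_mul]
  have hc : ((W.erase x).erase y).card + 2 = W.card := by
    rw [Finset.card_erase_of_mem hyx, Finset.card_erase_of_mem hx]
    have h1 : 0 < (W.erase x).card := Finset.card_pos.2 ⟨y, hyx⟩
    have h2 : 0 < W.card := Finset.card_pos.2 ⟨x, hx⟩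
    rw [Finset.card_erase_of_mem hx] at h1
    omega
  rw [← hc]
  nlinarith [h3, h2]


/-- `G` is the star with centre `w` on the vertices other than `u`, together with a pendant
vertex `u` attached to the leaf `v` of that star. -/
structure IsRType (G : SimpleGraph V) (u v w : V) : Prop where
  huv : u ≠ v
  huw : u ≠ w
  hvw : v ≠ w
  adj : ∀ x y, G.Adj x y ↔ (x = u ∧ y = v) ∨ (x = v ∧ y = u) ∨ (x = w ∧ y ≠ w ∧ y ≠ u) ∨
    (y = w ∧ x ≠ w ∧ x ≠ u)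

theorem indepIn_empty (G : SimpleGraph V) [DecidableRel G.Adj] :
    indepIn G ∅ = {∅} := by
  ext I
  rw [mem_indepIn, Finset.mem_singleton, Finset.subset_empty]
  constructor
  · exact fun h => h.1
  · rintro rfl; simp

theorem indepIn_singleton (G : SimpleGraph V) [DecidableRel G.Adj] (u : V) :
    indepIn G {u} = {∅, {u}} := by
  ext I
  rw [mem_indepIn, Finset.mem_insert, Finset.mem_singleton, Finset.subset_singleton_iff]
  constructor
  · exact fun h => h.1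
  · rintro (rfl | rfl)
    · simp
    · refine ⟨Or.inr rfl, ?_⟩
      intro x hx y hy
      rw [Finset.mem_singleton] at hx hy
      subst hx; subst hy
      exact G.loopless.irrefl _

theorem rtype_sum {G : SimpleGraph V} [DecidableRel G.Adj] {u v w : V} (h : IsRType G u v w)
    (F : ℕ → ℤ) :
    ∑ S ∈ oneNearlyIndepSets G, F S.card =
      (∑ I ∈ ((Finset.univ : Finset V) \ {u, v, w}).powerset, F (I.card + 2)) + F 2 +
        (((Finset.univ : Finset V) \ {u, v, w}).card : ℤ) * (F 2 + F 3) := by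
  obtain ⟨huv, huw, hvw, adj⟩ := h
  set L : Finset V := (Finset.univ : Finset V) \ {u, v, w} with hL
  have memL : ∀ z, z ∈ L ↔ z ≠ u ∧ z ≠ v ∧ z ≠ w := by
    intro z; rw [hL]; simp
  have nu : G.neighborFinset u = {v} := by
    ext z; rw [SimpleGraph.mem_neighborFinset, adj, Finset.mem_singleton]
    constructor
    · rintro (h | h | h | h)
      · exact h.2
      · exact absurd h.1 huv
      · exact absurd h.1 huw
      · exact absurd rfl h.2.2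
    · rintro rfl; exact Or.inl ⟨rfl, rfl⟩
  have nv : G.neighborFinset v = {u, w} := by
    ext z; rw [SimpleGraph.mem_neighborFinset, adj, Finset.mem_insert, Finset.mem_singleton]
    constructor
    · rintro (h | h | h | h)
      · exact absurd h.1 huv.symm
      · exact Or.inl h.2
      · exact absurd h.1 hvw
      · exact Or.inr h.1
    · rintro (rfl | rfl)
      · exact Or.inr (Or.inl ⟨rfl, rfl⟩)
      · exact Or.inr (Or.inr (Or.inr ⟨rfl, hvw, huv.symm⟩))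
  have nw : G.neighborFinset w = insert v L := by
    ext z; rw [SimpleGraph.mem_neighborFinset, adj, Finset.mem_insert, memL]
    constructor
    · rintro (h | h | h | h)
      · exact absurd h.1 huw.symm
      · exact absurd h.1 hvw.symm
      · by_cases hz : z = v
        · exact Or.inl hz
        · exact Or.inr ⟨h.2.2, hz, h.2.1⟩
      · exact absurd rfl h.2.1
    · rintro (rfl | h)
      · exact Or.inr (Or.inr (Or.inl ⟨rfl, hvw, huv.symm⟩))
      · exact Or.inr (Or.inr (Or.inl ⟨rfl, h.2.2, h.1⟩))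
  have nz : ∀ z ∈ L, G.neighborFinset z = {w} := by
    intro z hz
    rw [memL] at hz
    ext t; rw [SimpleGraph.mem_neighborFinset, adj, Finset.mem_singleton]
    constructor
    · rintro (h | h | h | h)
      · exact absurd h.1 hz.1
      · exact absurd h.1 hz.2.1
      · exact absurd h.1 hz.2.2
      · exact h.1
    · rintro rfl; exact Or.inr (Or.inr (Or.inr ⟨rfl, hz.2.2, hz.1⟩))
  have fcomm : ∀ a b, farSet G a b = farSet G b a := by
    intro a b; ext z; simp only [farSet, Finset.mem_filter]; tauto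
  have fuv : farSet G u v = L := by
    ext z
    have h1 := (SimpleGraph.mem_neighborFinset G u z)
    have h2 := (SimpleGraph.mem_neighborFinset G v z)
    rw [nu, Finset.mem_singleton] at h1
    rw [nv, Finset.mem_insert, Finset.mem_singleton] at h2
    simp only [farSet, Finset.mem_filter, Finset.mem_univ, true_and, memL, ← h1, ← h2]
    tauto
  have fvw : farSet G v w = ∅ := by
    ext z
    have h1 := (SimpleGraph.mem_neighborFinset G w z)
    have h2 := (SimpleGraph.mem_neighborFinset G v z)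
    rw [nw, Finset.mem_insert, memL] at h1
    rw [nv, Finset.mem_insert, Finset.mem_singleton] at h2
    simp only [farSet, Finset.mem_filter, Finset.mem_univ, true_and, ← h1, ← h2,
      Finset.notMem_empty, iff_false]
    tauto
  have fwz : ∀ z ∈ L, farSet G w z = {u} := by
    intro t ht
    ext z
    have h1 := (SimpleGraph.mem_neighborFinset G w z)
    have h2 := (SimpleGraph.mem_neighborFinset G t z)
    rw [nw, Finset.mem_insert, memL] at h1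
    rw [nz t ht, Finset.mem_singleton] at h2
    simp only [farSet, Finset.mem_filter, Finset.mem_univ, true_and, ← h1, ← h2,
      Finset.mem_singleton]
    constructor
    · rintro ⟨h3, h4⟩
      by_contra h5
      apply h3
      by_cases h6 : z = v
      · exact Or.inl h6
      · exact Or.inr ⟨h5, h6, h4⟩
    · rintro rfl
      refine ⟨?_, huw⟩
      rintro (h | h)
      · exact huv h
      · exact h.1 rfl
  have iL : indepIn G L = L.powerset := by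
    ext I
    rw [mem_indepIn, Finset.mem_powerset]
    constructor
    · exact fun h => h.1
    · intro h
      refine ⟨h, ?_⟩
      intro x hx y hy hxy
      have h1 := (SimpleGraph.mem_neighborFinset G x y).2 hxy
      rw [nz x (h hx), Finset.mem_singleton] at h1
      have h2 := h hy
      rw [memL] at h2
      exact h2.2.2 h1
  have hw : w ∉ L := by rw [memL]; tauto
  have hv : v ∉ L := by rw [memL]; tauto
  have hu : u ∉ L := by rw [memL]; tauto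
  have huniv : (Finset.univ : Finset V) = insert u (insert v (insert w L)) := by
    ext z
    simp only [Finset.mem_univ, Finset.mem_insert, memL, true_iff]
    by_cases h1 : z = u
    · exact Or.inl h1
    · by_cases h2 : z = v
      · exact Or.inr (Or.inl h2)
      · by_cases h3 : z = w
        · exact Or.inr (Or.inr (Or.inl h3))
        · exact Or.inr (Or.inr (Or.inr ⟨h1, h2, h3⟩))
  have h2 := two_mul_sum G F
  have e1 : ∑ y ∈ G.neighborFinset u, ∑ I ∈ indepIn G (farSet G u y), F (I.card + 2) =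
      ∑ I ∈ L.powerset, F (I.card + 2) := by
    rw [nu, Finset.sum_singleton, fuv, iL]
  have e2 : ∑ y ∈ G.neighborFinset v, ∑ I ∈ indepIn G (farSet G v y), F (I.card + 2) =
      ∑ I ∈ L.powerset, F (I.card + 2) + F 2 := by
    rw [nv, Finset.sum_pair huw, fcomm v u, fuv, iL, fvw, indepIn_empty, Finset.sum_singleton]
    simp
  have e3 : ∑ y ∈ G.neighborFinset w, ∑ I ∈ indepIn G (farSet G w y), F (I.card + 2) =
      F 2 + (L.card : ℤ) * (F 2 + F 3) := by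
    rw [nw, Finset.sum_insert hv, fcomm w v, fvw, indepIn_empty, Finset.sum_singleton]
    rw [Finset.sum_congr rfl (fun y hy => by rw [fwz y hy, indepIn_singleton])]
    rw [Finset.sum_const, nsmul_eq_mul]
    rw [Finset.sum_pair (by simp)]
    simp
  have e4 : ∀ z ∈ L, ∑ y ∈ G.neighborFinset z, ∑ I ∈ indepIn G (farSet G z y), F (I.card + 2) =
      (F 2 + F 3) := by
    intro z hz
    rw [nz z hz, Finset.sum_singleton, fcomm z w, fwz z hz, indepIn_singleton,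
      Finset.sum_pair (by simp)]
    simp
  have hsplit : ∑ x : V, ∑ y ∈ G.neighborFinset x, ∑ I ∈ indepIn G (farSet G x y), F (I.card + 2)
      = ∑ x ∈ insert u (insert v (insert w L)), ∑ y ∈ G.neighborFinset x,
        ∑ I ∈ indepIn G (farSet G x y), F (I.card + 2) := by
    rw [← huniv]
  rw [hsplit, Finset.sum_insert, Finset.sum_insert, Finset.sum_insert hw, e1, e2, e3,
    Finset.sum_congr rfl e4, Finset.sum_const, nsmul_eq_mul] at h2
  · linarith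
  · rw [Finset.mem_insert]; rintro (h | h)
    · exact hvw h
    · exact hv h
  · rw [Finset.mem_insert, Finset.mem_insert]; rintro (h | h | h)
    · exact huv h
    · exact huw h
    · exact hu h

theorem rtype_card_L {u v w : V} (huv : u ≠ v) (huw : u ≠ w) (hvw : v ≠ w) :
    ((Finset.univ : Finset V) \ {u, v, w}).card = Fintype.card V - 3 := by
  rw [Finset.card_sdiff_of_subset (Finset.subset_univ _), Finset.card_univ]
  congr 1
  rw [Finset.card_insert_of_notMem, Finset.card_pair hvw]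
  simp only [Finset.mem_insert, Finset.mem_singleton]
  rintro (h | h)
  · exact huv h
  · exact huw h

theorem rtype_sigma1 {G : SimpleGraph V} [DecidableRel G.Adj] {u v w : V} (h : IsRType G u v w)
    (m : ℕ) (hm : Fintype.card V = m + 3) : (sigma1 G : ℤ) = 2 ^ m + 2 * m + 1 := by
  have h1 := rtype_sum h (fun _ => 1)
  have hc := rtype_card_L h.huv h.huw h.hvw
  have hc' : ((Finset.univ : Finset V) \ {u, v, w}).card = m := by omega
  simp only [Finset.sum_const, Finset.card_powerset, hc', nsmul_eq_mul, mul_one] at h1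
  unfold sigma1
  rw [h1]
  push_cast
  ring

theorem sum_card_powerset (L : Finset V) : 2 * ∑ I ∈ L.powerset, I.card = L.card * 2 ^ L.card := by
  classical
  have h1 : ∑ I ∈ L.powerset, I.card = ∑ I ∈ L.powerset, (L \ I).card := by
    refine Finset.sum_bij' (fun I _ => L \ I) (fun I _ => L \ I) ?_ ?_ ?_ ?_ ?_
    · intro I _; exact Finset.mem_powerset.2 Finset.sdiff_subset
    · intro I _; exact Finset.mem_powerset.2 Finset.sdiff_subset
    · intro I hI; exact Finset.sdiff_sdiff_eq_self (Finset.mem_powerset.1 hI)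
    · intro I hI; exact Finset.sdiff_sdiff_eq_self (Finset.mem_powerset.1 hI)
    · intro I hI; rw [Finset.sdiff_sdiff_eq_self (Finset.mem_powerset.1 hI)]
  have h2 : ∑ I ∈ L.powerset, I.card + ∑ I ∈ L.powerset, (L \ I).card =
      ∑ I ∈ L.powerset, L.card := by
    rw [← Finset.sum_add_distrib]
    refine Finset.sum_congr rfl (fun I hI => ?_)
    rw [Finset.card_sdiff_of_subset (Finset.mem_powerset.1 hI)]
    have := Finset.card_le_card (Finset.mem_powerset.1 hI)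
    omega
  rw [Finset.sum_const, Finset.card_powerset, smul_eq_mul] at h2
  rw [mul_comm L.card]
  omega

theorem rtype_totalSize {G : SimpleGraph V} [DecidableRel G.Adj] {u v w : V}
    (h : IsRType G u v w) (m : ℕ) (hm : Fintype.card V = m + 3) :
    2 * (totalSize G : ℤ) = (m + 4) * 2 ^ m + 10 * m + 4 := by
  have h1 := rtype_sum h (fun k => (k : ℤ))
  have hc := rtype_card_L h.huv h.huw h.hvw
  have hc' : ((Finset.univ : Finset V) \ {u, v, w}).card = m := by omega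
  have h2 := sum_card_powerset ((Finset.univ : Finset V) \ {u, v, w})
  rw [hc'] at h2
  have h3 : (2 : ℤ) * ∑ I ∈ ((Finset.univ : Finset V) \ {u, v, w}).powerset, (I.card : ℤ) =
      m * 2 ^ m := by exact_mod_cast h2
  have h4 : ∑ I ∈ ((Finset.univ : Finset V) \ {u, v, w}).powerset, ((I.card + 2 : ℕ) : ℤ) =
      ∑ I ∈ ((Finset.univ : Finset V) \ {u, v, w}).powerset, (I.card : ℤ) + 2 * 2 ^ m := by
    push_cast
    rw [Finset.sum_add_distrib, Finset.sum_const, Finset.card_powerset, hc', nsmul_eq_mul]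
    push_cast; ring
  have h5 : (totalSize G : ℤ) = ∑ S ∈ oneNearlyIndepSets G, (S.card : ℤ) := by
    unfold totalSize; push_cast; rfl
  rw [h5, h1, h4, hc']
  push_cast
  linarith


theorem card_farSet {G : SimpleGraph V} [DecidableRel G.Adj] (hG : G.IsAcyclic) {x y : V}
    (hxy : G.Adj x y) : (farSet G x y).card + G.degree x + G.degree y = Fintype.card V := by
  have hdis : Disjoint (G.neighborFinset x) (G.neighborFinset y) := by
    rw [Finset.disjoint_left]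
    intro z hz hz2
    rw [SimpleGraph.mem_neighborFinset] at hz hz2
    have := hG.cliqueFree (le_refl 3)
    exact this {x, y, z} (SimpleGraph.is3Clique_triple_iff.2 ⟨hxy, hz, hz2⟩)
  have h1 : farSet G x y = Finset.univ \ (G.neighborFinset x ∪ G.neighborFinset y) := by
    ext z
    simp only [farSet, Finset.mem_filter, Finset.mem_univ, true_and, Finset.mem_sdiff,
      Finset.mem_union, SimpleGraph.mem_neighborFinset]
    tauto
  have h2 := Finset.card_sdiff_add_card_eq_card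
    (Finset.subset_univ (G.neighborFinset x ∪ G.neighborFinset y))
  rw [Finset.card_union_of_disjoint hdis, ← h1, Finset.card_univ] at h2
  rw [← G.card_neighborFinset_eq_degree x, ← G.card_neighborFinset_eq_degree y]
  omega

theorem one_le_degree {G : SimpleGraph V} [DecidableRel G.Adj] {x y : V} (h : G.Adj x y) :
    1 ≤ G.degree x := by
  rw [Nat.one_le_iff_ne_zero, ← Nat.pos_iff_ne_zero, G.degree_pos_iff_exists_adj]
  exact ⟨y, h⟩

/-- In a connected graph with at least three vertices the degrees of adjacent vertices sum to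
at least three. -/
theorem three_le_degree_add {G : SimpleGraph V} [DecidableRel G.Adj] (hG : G.Connected)
    (hn : 3 ≤ Fintype.card V) {x y : V} (hxy : G.Adj x y) : 3 ≤ G.degree x + G.degree y := by
  by_contra hcon
  have hx := one_le_degree hxy
  have hy := one_le_degree hxy.symm
  have hx1 : G.degree x = 1 := by omega
  have hy1 : G.degree y = 1 := by omega
  rw [SimpleGraph.degree_eq_one_iff_existsUnique_adj] at hx1 hy1
  obtain ⟨x', hx', hx''⟩ := hx1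
  obtain ⟨y', hy', hy''⟩ := hy1
  have ex : ∀ z, G.Adj x z → z = y := fun z hz => (hx'' z hz).trans (hx'' y hxy).symm
  have ey : ∀ z, G.Adj y z → z = x := fun z hz => (hy'' z hz).trans (hy'' x hxy.symm).symm
  -- a third vertex
  have : ∃ z : V, z ∉ ({x, y} : Finset V) := by
    by_contra hz
    push Not at hz
    have h1 : (Finset.univ : Finset V) ⊆ {x, y} := fun z _ => hz z
    have h2 := Finset.card_le_card h1
    have h3 : ({x, y} : Finset V).card ≤ 2 := Finset.card_le_two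
    rw [Finset.card_univ] at h2
    omega
  obtain ⟨z, hz⟩ := this
  obtain ⟨p⟩ := hG.preconnected x z
  obtain ⟨d, _, hd1, hd2⟩ := p.exists_boundary_dart (({x, y} : Finset V) : Set V) (by simp)
    (by simpa using hz)
  have hd := d.adj
  simp only [Finset.coe_insert, Finset.coe_singleton, Set.mem_insert_iff,
    Set.mem_singleton_iff, not_or] at hd1 hd2
  rcases hd1 with h | h
  · rw [h] at hd; exact hd2.2 (ex _ hd)
  · rw [h] at hd; exact hd2.1 (ey _ hd)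

/-- If a leaf `u` hangs at a vertex `v` of degree two and nothing outside is adjacent, the tree
is of R-type. -/
theorem rtype_of_indep {G : SimpleGraph V} [DecidableRel G.Adj] (hG : G.Connected)
    {u v : V} (huv : G.Adj u v) (hu : G.degree u = 1) (hv : G.degree v = 2)
    (hind : ∀ x ∈ farSet G u v, ∀ y ∈ farSet G u v, ¬ G.Adj x y) :
    ∃ w, IsRType G u v w := by
  rw [SimpleGraph.degree_eq_one_iff_existsUnique_adj] at hu
  obtain ⟨u', hu', hu''⟩ := hu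
  have eu : ∀ z, G.Adj u z → z = v := fun z hz => (hu'' z hz).trans (hu'' v huv).symm
  rw [← G.card_neighborFinset_eq_degree v, Finset.card_eq_two] at hv
  obtain ⟨a, b, hab, hNv⟩ := hv
  have hNv' : ∀ z, G.Adj v z ↔ z = a ∨ z = b := by
    intro z
    rw [← SimpleGraph.mem_neighborFinset, hNv]; simp
  -- choose w the neighbour of v different from u
  obtain ⟨w, hwu, hw⟩ : ∃ w, w ≠ u ∧ ∀ z, G.Adj v z ↔ z = u ∨ z = w := by
    rcases (hNv' u).1 huv.symm with h | h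
    · exact ⟨b, by rw [h]; exact hab.symm, by intro z; rw [hNv', h]⟩
    · exact ⟨a, by rw [h]; exact hab, by intro z; rw [hNv', h]; tauto⟩
  have hvw : G.Adj v w := (hw w).2 (Or.inr rfl)
  refine ⟨w, huv.ne, hwu.symm, hvw.ne, ?_⟩
  have far : ∀ z, z ≠ u → z ≠ v → z ≠ w → z ∈ farSet G u v := by
    intro z h1 h2 h3
    simp only [farSet, Finset.mem_filter, Finset.mem_univ, true_and]
    refine ⟨fun h => h2 (eu z h), fun h => ?_⟩
    rcases (hw z).1 h with h | h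
    · exact h1 h
    · exact h3 h
  have hz : ∀ z, z ≠ u → z ≠ v → z ≠ w → ∀ t, G.Adj z t ↔ t = w := by
    intro z h1 h2 h3
    have hsub : ∀ t, G.Adj z t → t = w := by
      intro t ht
      by_contra htw
      by_cases htu : t = u
      · rw [htu] at ht; exact h2 (eu z ht.symm)
      · by_cases htv : t = v
        · rw [htv] at ht
          rcases (hw z).1 ht.symm with h | h
          · exact h1 h
          · exact h3 h
        · exact hind z (far z h1 h2 h3) t (far t htu htv htw) ht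
    have hne : ∃ t, G.Adj z t := by
      have : Nontrivial V := ⟨⟨u, v, huv.ne⟩⟩
      have := hG.preconnected.degree_pos_of_nontrivial z
      exact (G.degree_pos_iff_exists_adj z).1 this
    obtain ⟨t, ht⟩ := hne
    intro t'
    constructor
    · exact hsub t'
    · intro h
      rw [h, ← hsub t ht]; exact ht
  intro x y
  by_cases hxu : x = u
  · subst hxu
    constructor
    · intro h; exact Or.inl ⟨rfl, eu y h⟩
    · rintro (h | h | h | h)
      · rw [h.2]; exact huv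
      · exact absurd h.1 huv.ne
      · exact absurd h.1 hwu.symm
      · exact absurd rfl h.2.2
  · by_cases hxv : x = v
    · subst hxv
      rw [hw]
      constructor
      · rintro (h | h)
        · exact Or.inr (Or.inl ⟨rfl, h⟩)
        · exact Or.inr (Or.inr (Or.inr ⟨h, hvw.ne, hxu⟩))
      · rintro (h | h | h | h)
        · exact absurd h.1 hxu
        · exact Or.inl h.2
        · exact absurd h.1 hvw.ne
        · exact Or.inr h.1
    · by_cases hxw : x = w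
      · subst hxw
        constructor
        · intro h
          refine Or.inr (Or.inr (Or.inl ⟨rfl, h.ne', ?_⟩))
          rintro rfl
          exact hxv (eu _ h.symm)
        · rintro (h | h | h | h)
          · exact absurd h.1 hxu
          · exact absurd h.1 hxv
          · by_cases hyv : y = v
            · rw [hyv]; exact hvw.symm
            · exact ((hz y h.2.2 hyv h.2.1 x).2 rfl).symm
          · exact absurd rfl h.2.1
      · rw [hz x hxu hxv hxw]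
        constructor
        · intro h; exact Or.inr (Or.inr (Or.inr ⟨h, hxw, hxu⟩))
        · rintro (h | h | h | h)
          · exact absurd h.1 hxu
          · exact absurd h.1 hxv
          · exact absurd h.1 hxw
          · exact h.1

/-- Upper bound for trees that are not of R-type. -/
theorem tree_bound (T : SimpleGraph V) [DecidableRel T.Adj] (hT : T.IsTree)
    (hn : 4 ≤ Fintype.card V) (hR : ¬ ∃ u v w, IsRType T u v w) :
    6 * (totalSize T : ℤ) ≤ (3 * (Fintype.card V : ℤ) + 1) * (sigma1 T : ℤ) := by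
  have h2 := two_mul_sum T (fun k => 6 * (k : ℤ) - (3 * (Fintype.card V : ℤ) + 1))
  have hle : ∑ x : V, ∑ y ∈ T.neighborFinset x, ∑ I ∈ indepIn T (farSet T x y),
      (6 * ((I.card + 2 : ℕ) : ℤ) - (3 * (Fintype.card V : ℤ) + 1)) ≤ 0 := by
    refine Finset.sum_nonpos (fun x _ => Finset.sum_nonpos (fun y hy => ?_))
    rw [SimpleGraph.mem_neighborFinset] at hy
    have hsum : ∑ I ∈ indepIn T (farSet T x y),
        (6 * ((I.card + 2 : ℕ) : ℤ) - (3 * (Fintype.card V : ℤ) + 1)) =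
        6 * (∑ I ∈ indepIn T (farSet T x y), I.card : ℕ) +
          (11 - 3 * (Fintype.card V : ℤ)) * ((indepIn T (farSet T x y)).card : ℤ) := by
      have : ∀ I ∈ indepIn T (farSet T x y),
          (6 * ((I.card + 2 : ℕ) : ℤ) - (3 * (Fintype.card V : ℤ) + 1)) =
          6 * (I.card : ℤ) + (11 - 3 * (Fintype.card V : ℤ)) := by
        intro I _; push_cast; ring
      rw [Finset.sum_congr rfl this, Finset.sum_add_distrib, Finset.sum_const, nsmul_eq_mul,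
        ← Finset.mul_sum]
      push_cast
      ring
    rw [hsum]
    have hcard := card_farSet hT.isAcyclic hy
    have h3 := three_le_degree_add hT.connected (by omega) hy
    have hc0 : (0 : ℤ) ≤ ((indepIn T (farSet T x y)).card : ℤ) := by positivity
    by_cases h4 : 4 ≤ T.degree x + T.degree y
    · have h5 := two_mul_sum_card T (farSet T x y)
      have h5' : (2 : ℤ) * (∑ I ∈ indepIn T (farSet T x y), I.card : ℕ) ≤
        ((farSet T x y).card : ℤ) * ((indepIn T (farSet T x y)).card : ℤ) := by exact_mod_cast h5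
      have h6 : ((farSet T x y).card : ℤ) ≤ (Fintype.card V : ℤ) - 4 := by omega
      nlinarith [mul_le_mul_of_nonneg_right h6 hc0]
    · have h7 : ∃ a ∈ farSet T x y, ∃ b ∈ farSet T x y, T.Adj a b := by
        by_contra hcon
        push Not at hcon
        apply hR
        have hx := one_le_degree hy
        have hy' := one_le_degree hy.symm
        by_cases hx1 : T.degree x = 1
        · obtain ⟨w, hw⟩ := rtype_of_indep hT.connected hy hx1 (by omega) hcon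
          exact ⟨x, y, w, hw⟩
        · have hcomm : farSet T y x = farSet T x y := by
            ext z; simp only [farSet, Finset.mem_filter]; tauto
          obtain ⟨w, hw⟩ := rtype_of_indep hT.connected hy.symm (by omega) (by omega)
            (by rw [hcomm]; exact hcon)
          exact ⟨y, x, w, hw⟩
      obtain ⟨a, ha, b, hb, hab⟩ := h7
      have h5 := six_mul_sum_card T (farSet T x y) a b ha hb hab
      have h5' : (6 : ℤ) * (∑ I ∈ indepIn T (farSet T x y), I.card : ℕ) +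
        2 * ((indepIn T (farSet T x y)).card : ℤ) ≤
        3 * ((farSet T x y).card : ℤ) * ((indepIn T (farSet T x y)).card : ℤ) := by
        exact_mod_cast h5
      have h6 : ((farSet T x y).card : ℤ) ≤ (Fintype.card V : ℤ) - 3 := by omega
      nlinarith [mul_le_mul_of_nonneg_right h6 hc0]
  have h5 : ∑ S ∈ oneNearlyIndepSets T, (6 * (S.card : ℤ) - (3 * (Fintype.card V : ℤ) + 1)) =
      6 * (totalSize T : ℤ) - (3 * (Fintype.card V : ℤ) + 1) * (sigma1 T : ℤ) := by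
    rw [Finset.sum_sub_distrib, ← Finset.mul_sum, Finset.sum_const, nsmul_eq_mul]
    unfold totalSize sigma1
    push_cast
    ring
  rw [h5] at h2
  linarith


theorem av1_le_of_rtype_ten (G T : SimpleGraph V) [DecidableRel G.Adj] [DecidableRel T.Adj]
    (hn : 10 ≤ Fintype.card V) (hG : ∃ u v w, IsRType G u v w) (hT : T.IsTree) :
    av1 T ≤ av1 G := by
  obtain ⟨u, v, w, h⟩ := hG
  obtain ⟨m, hm⟩ : ∃ m, Fintype.card V = m + 3 := ⟨Fintype.card V - 3, by omega⟩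
  have h1 := rtype_sigma1 h m hm
  have h2 := rtype_totalSize h m hm
  by_cases hR : ∃ u v w, IsRType T u v w
  · obtain ⟨u', v', w', h'⟩ := hR
    have h1' := rtype_sigma1 h' m hm
    have h2' := rtype_totalSize h' m hm
    have e1 : sigma1 T = sigma1 G := by
      have : (sigma1 T : ℤ) = sigma1 G := by rw [h1, h1']
      exact_mod_cast this
    have e2 : totalSize T = totalSize G := by
      have : 2 * (totalSize T : ℤ) = 2 * totalSize G := by rw [h2, h2']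
      have : (totalSize T : ℤ) = totalSize G := by linarith
      exact_mod_cast this
    unfold av1
    rw [e1, e2]
  · have h3 := tree_bound T hT (by omega) hR
    have hpow : 6 * (m : ℤ) ^ 2 ≤ 2 * 2 ^ m + 7 * m + 2 := by
      have hm7 : 7 ≤ m := by omega
      clear h1 h2 h3 hm
      induction m, hm7 using Nat.le_induction with
      | base => norm_num
      | succ k hk ih =>
        have hk' : (7 : ℤ) ≤ k := by exact_mod_cast hk
        have h2k : (2 : ℤ) ^ (k + 1) = 2 * 2 ^ k := by ring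
        rw [h2k]
        push_cast
        nlinarith
    have h4 : (3 * (Fintype.card V : ℤ) + 1) * (sigma1 G : ℤ) ≤ 6 * (totalSize G : ℤ) := by
      rw [h1, hm]
      push_cast
      nlinarith
    have hGpos : (0 : ℤ) < sigma1 G := by rw [h1]; positivity
    have hGpos' : (0 : ℚ) < sigma1 G := by exact_mod_cast hGpos
    have h4' : (3 * (Fintype.card V : ℚ) + 1) * (sigma1 G : ℚ) ≤ 6 * (totalSize G : ℚ) := by
      exact_mod_cast h4
    have h3' : 6 * (totalSize T : ℚ) ≤ (3 * (Fintype.card V : ℚ) + 1) * (sigma1 T : ℚ) := by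
      exact_mod_cast h3
    unfold av1
    by_cases h0 : sigma1 T = 0
    · rw [h0]
      simp only [Nat.cast_zero, div_zero]
      positivity
    · have hTpos : (0 : ℚ) < sigma1 T := by
        exact_mod_cast Nat.pos_of_ne_zero h0
      rw [div_le_div_iff₀ hTpos hGpos']
      have h6 : (0 : ℚ) ≤ (sigma1 G : ℚ) := hGpos'.le
      have h7 : (0 : ℚ) ≤ (sigma1 T : ℚ) := hTpos.le
      nlinarith [mul_le_mul_of_nonneg_right h3' h6, mul_le_mul_of_nonneg_right h4' h7]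

end general

section iso
variable {V W : Type*} [Fintype V] [DecidableEq V] [Fintype W] [DecidableEq W]

/-- The statistics only depend on the isomorphism class. -/
theorem sum_iso {G : SimpleGraph V} {H : SimpleGraph W} (e : G ≃g H) (F : ℕ → ℕ) :
    ∑ S ∈ oneNearlyIndepSets G, F S.card = ∑ S ∈ oneNearlyIndepSets H, F S.card := by
  refine Finset.sum_bij' (fun S _ => S.map e.toEquiv.toEmbedding)
    (fun S _ => S.map e.symm.toEquiv.toEmbedding) ?_ ?_ ?_ ?_ ?_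
  · intro S hS
    rw [mem_oneNearlyIndepSets] at hS ⊢
    obtain ⟨u, v, huv, hu, hv, h⟩ := hS
    refine ⟨e u, e v, e.map_rel_iff.2 huv, ?_, ?_, ?_⟩
    · rw [Finset.mem_map]; exact ⟨u, hu, rfl⟩
    · rw [Finset.mem_map]; exact ⟨v, hv, rfl⟩
    · intro x y hxy hx hy
      rw [Finset.mem_map] at hx hy
      obtain ⟨x', hx', rfl⟩ := hx
      obtain ⟨y', hy', rfl⟩ := hy
      have h1 : G.Adj x' y' := e.map_rel_iff.1 hxy
      rcases h x' y' h1 hx' hy' with ⟨rfl, rfl⟩ | ⟨rfl, rfl⟩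
      · exact Or.inl ⟨rfl, rfl⟩
      · exact Or.inr ⟨rfl, rfl⟩
  · intro S hS
    rw [mem_oneNearlyIndepSets] at hS ⊢
    obtain ⟨u, v, huv, hu, hv, h⟩ := hS
    refine ⟨e.symm u, e.symm v, e.symm.map_rel_iff.2 huv, ?_, ?_, ?_⟩
    · rw [Finset.mem_map]; exact ⟨u, hu, rfl⟩
    · rw [Finset.mem_map]; exact ⟨v, hv, rfl⟩
    · intro x y hxy hx hy
      rw [Finset.mem_map] at hx hy
      obtain ⟨x', hx', rfl⟩ := hx
      obtain ⟨y', hy', rfl⟩ := hy
      have h1 : H.Adj x' y' := e.symm.map_rel_iff.1 hxy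
      rcases h x' y' h1 hx' hy' with ⟨rfl, rfl⟩ | ⟨rfl, rfl⟩
      · exact Or.inl ⟨rfl, rfl⟩
      · exact Or.inr ⟨rfl, rfl⟩
  · intro S _
    ext x
    simp only [Finset.mem_map_equiv]
    change e.symm (e x) ∈ S ↔ x ∈ S
    rw [RelIso.symm_apply_apply]
  · intro S _
    ext x
    simp only [Finset.mem_map_equiv]
    change e (e.symm x) ∈ S ↔ x ∈ S
    rw [RelIso.apply_symm_apply]
  · intro S _
    rw [Finset.card_map]

theorem sigma1_iso {G : SimpleGraph V} {H : SimpleGraph W} (e : G ≃g H) :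
    sigma1 G = sigma1 H := by
  have := sum_iso e (fun _ => 1)
  simpa [sigma1] using this

theorem totalSize_iso {G : SimpleGraph V} {H : SimpleGraph W} (e : G ≃g H) :
    totalSize G = totalSize H := by
  simpa [totalSize] using sum_iso e (fun k => k)

end iso

section enumeration

/-- adjacency test for the tree with vertices `0, 1, …, l.length` in which the parent of
`i + 1` is the `i`-th entry of `l` -/
def adjB (l : List ℕ) (i j : ℕ) : Bool :=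
  (decide (0 < i) && decide (l[i - 1]? = some j)) || (decide (0 < j) && decide (l[j - 1]? = some i))

theorem adjB_comm (l : List ℕ) (i j : ℕ) : adjB l i j = adjB l j i := by
  unfold adjB; rw [Bool.or_comm]

/-- the graph on `Fin n` given by the parent list `l` -/
def ofPar (n : ℕ) (l : List ℕ) : SimpleGraph (Fin n) where
  Adj i j := i ≠ j ∧ adjB l i j = true
  symm := ⟨fun i j h => ⟨h.1.symm, by rw [adjB_comm]; exact h.2⟩⟩
  loopless := ⟨fun i h => h.1 rfl⟩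

instance (n : ℕ) (l : List ℕ) : DecidableRel (ofPar n l).Adj :=
  fun i j => inferInstanceAs (Decidable (i ≠ j ∧ adjB l i j = true))

/-- test that `p` is an isomorphism between two parent-list graphs -/
def isoCheck (n : ℕ) (l l' p : List ℕ) : Bool :=
  decide (p.length = n) && decide p.Nodup && p.all (fun a => decide (a < n)) &&
    (List.range n).all (fun i => (List.range n).all (fun j =>
      adjB l i j == adjB l' (p.getD i 0) (p.getD j 0)))

theorem iso_of_isoCheck {n : ℕ} {l l' p : List ℕ} (h : isoCheck n l l' p = true) :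
    Nonempty (ofPar n l ≃g ofPar n l') := by
  unfold isoCheck at h
  simp only [Bool.and_eq_true, decide_eq_true_eq, List.all_eq_true, List.mem_range,
    beq_iff_eq] at h
  obtain ⟨⟨⟨hlen, hnd⟩, hlt⟩, hadj⟩ := h
  let f : Fin n → Fin n := fun i => ⟨p.getD i 0, by
    have hi : (i : ℕ) < p.length := by rw [hlen]; exact i.2
    rw [List.getD_eq_getElem _ _ hi]
    exact hlt _ (List.getElem_mem hi)⟩
  have hinj : Function.Injective f := by
    intro i j hij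
    have hi : (i : ℕ) < p.length := by rw [hlen]; exact i.2
    have hj : (j : ℕ) < p.length := by rw [hlen]; exact j.2
    have h1 : p.getD i 0 = p.getD j 0 := congrArg Fin.val hij
    rw [List.getD_eq_getElem _ _ hi, List.getD_eq_getElem _ _ hj] at h1
    exact Fin.ext ((List.Nodup.getElem_inj_iff hnd).1 h1)
  have hbij : Function.Bijective f := Finite.injective_iff_bijective.1 hinj
  refine ⟨⟨Equiv.ofBijective f hbij, ?_⟩⟩
  intro i j
  change (f i ≠ f j ∧ adjB l' (f i) (f j) = true) ↔ (i ≠ j ∧ adjB l i j = true)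
  have h1 : adjB l i j = adjB l' (f i) (f j) := hadj i i.2 j j.2
  rw [h1, hinj.ne_iff]

/-- Leaf removal: every tree is obtained by adding a leaf. -/
theorem exists_extension {V : Type} [Fintype V] [DecidableEq V] {T : SimpleGraph V}
    (hT : T.IsTree) (n : ℕ) (hcard : Fintype.card V = n + 2) (P : List ℕ → Prop)
    (hP : ∀ l, P l → ∀ a ∈ l, a ≤ n)
    (IH : ∀ (W : Type) [Fintype W] [DecidableEq W] (T' : SimpleGraph W), T'.IsTree →
      Fintype.card W = n + 1 → ∃ l, P l ∧ l.length = n ∧ Nonempty (T' ≃g ofPar (n + 1) l)) :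
    ∃ l, P l ∧ ∃ k ≤ n, l.length = n ∧ Nonempty (T ≃g ofPar (n + 2) (l ++ [k])) := by
  classical
  have hnt : Nontrivial V := by
    rw [← Fintype.one_lt_card_iff_nontrivial]; omega
  obtain ⟨v, hv⟩ := hT.exists_vert_degree_one_of_nontrivial
  have hconn := hT.connected.induce_compl_singleton_of_degree_eq_one hv
  have htree : (T.induce ({v}ᶜ : Set V)).IsTree := ⟨hconn, hT.isAcyclic.induce _⟩
  have hc : Fintype.card ({v}ᶜ : Set V) = n + 1 := by
    rw [Fintype.card_compl_set, hcard]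
    simp
  obtain ⟨l, hl, hlen, ⟨e⟩⟩ := IH _ _ htree hc
  rw [SimpleGraph.degree_eq_one_iff_existsUnique_adj] at hv
  obtain ⟨w, hw, hw'⟩ := hv
  have hwv : w ∈ ({v}ᶜ : Set V) := by
    intro h; exact hw.ne' h
  set k : ℕ := ((e ⟨w, hwv⟩ : Fin (n + 1)) : ℕ) with hk
  have hkn : k ≤ n := by omega
  refine ⟨l, hl, k, hkn, hlen, ?_⟩
  let f : V → Fin (n + 2) := fun x =>
    if h : x ∈ ({v}ᶜ : Set V) then Fin.castSucc (e ⟨x, h⟩) else Fin.last (n + 1)
  have fv : f v = Fin.last (n + 1) := by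
    simp [f]
  have fx : ∀ (x : V) (h : x ∈ ({v}ᶜ : Set V)), f x = Fin.castSucc (e ⟨x, h⟩) := by
    intro x h; simp only [f]; rw [dif_pos h]
  have hinj : Function.Injective f := by
    intro x y hxy
    by_cases hx : x = v
    · by_cases hy : y = v
      · rw [hx, hy]
      · rw [hx, fv, fx y hy] at hxy
        exact absurd hxy.symm (Fin.castSucc_ne_last _)
    · by_cases hy : y = v
      · rw [hy, fv, fx x hx] at hxy
        exact absurd hxy (Fin.castSucc_ne_last _)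
      · rw [fx x hx, fx y hy] at hxy
        have := e.injective (Fin.castSucc_injective _ hxy)
        exact congrArg Subtype.val this
  have hbij : Function.Bijective f := by
    rw [Fintype.bijective_iff_injective_and_card]
    exact ⟨hinj, by rw [hcard, Fintype.card_fin]⟩
  have hadj : ∀ x y : V, x ≠ v → y ≠ v →
      ((f x ≠ f y ∧ adjB (l ++ [k]) (f x) (f y) = true) ↔ T.Adj x y) := by
    intro x y hx hy
    have h1 : T.Adj x y ↔ (T.induce ({v}ᶜ : Set V)).Adj ⟨x, hx⟩ ⟨y, hy⟩ := by simp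
    rw [h1, ← e.map_rel_iff, fx x hx, fx y hy]
    change _ ↔ (e ⟨x, hx⟩ ≠ e ⟨y, hy⟩ ∧ adjB l (e ⟨x, hx⟩) (e ⟨y, hy⟩) = true)
    have hb : ∀ a b : ℕ, a ≤ n → b ≤ n → adjB (l ++ [k]) a b = adjB l a b := by
      intro a b ha hb
      unfold adjB
      by_cases ha0 : 0 < a
      · have : a - 1 < l.length := by omega
        rw [List.getElem?_append_left this]
        by_cases hb0 : 0 < b
        · have : b - 1 < l.length := by omega
          rw [List.getElem?_append_left this]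
        · simp [hb0]
      · by_cases hb0 : 0 < b
        · have : b - 1 < l.length := by omega
          rw [List.getElem?_append_left this]
          simp [ha0]
        · simp [ha0, hb0]
    rw [Fin.val_castSucc, Fin.val_castSucc, hb _ _ (by omega) (by omega),
      (Fin.castSucc_injective _).ne_iff]
  have hadjv : ∀ x : V, x ≠ v →
      ((f v ≠ f x ∧ adjB (l ++ [k]) (f v) (f x) = true) ↔ T.Adj v x) := by
    intro x hx
    rw [fv, fx x hx]
    have h1 : adjB (l ++ [k]) (Fin.last (n + 1)) (Fin.castSucc (e ⟨x, hx⟩)) = true ↔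
        x = w := by
      unfold adjB
      have h2 : (l ++ [k])[((Fin.last (n + 1) : Fin (n + 2)) : ℕ) - 1]? = some k := by
        rw [Fin.val_last, Nat.add_sub_cancel, ← hlen]
        simp
      rw [h2, Fin.val_last, Fin.val_castSucc]
      have h3 : (l ++ [k])[((e ⟨x, hx⟩ : Fin (n + 1)) : ℕ) - 1]? ≠ some (n + 1) ∨
          ¬ 0 < ((e ⟨x, hx⟩ : Fin (n + 1)) : ℕ) := by
        left
        intro h
        have h5 := List.mem_of_getElem? h
        rw [List.mem_append, List.mem_singleton] at h5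
        rcases h5 with h5 | h5
        · have := hP l hl _ h5
          omega
        · omega
      have h4 : k = ((e ⟨x, hx⟩ : Fin (n + 1)) : ℕ) ↔ x = w := by
        rw [hk]
        constructor
        · intro h
          have := e.injective (Fin.ext h)
          exact (congrArg Subtype.val this).symm
        · rintro rfl; rfl
      simp only [Nat.zero_lt_succ, decide_true, Bool.true_and, Option.some.injEq,
        Bool.or_eq_true, decide_eq_true_eq, Bool.and_eq_true]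
      rw [h4]
      tauto
    rw [h1]
    constructor
    · rintro ⟨_, rfl⟩; exact hw
    · intro h
      exact ⟨(Fin.castSucc_ne_last _).symm, hw' x h⟩
  refine ⟨⟨Equiv.ofBijective f hbij, ?_⟩⟩
  intro x y
  change (f x ≠ f y ∧ adjB (l ++ [k]) (f x) (f y) = true) ↔ T.Adj x y
  by_cases hx : x = v
  · by_cases hy : y = v
    · rw [hx, hy]; simp
    · rw [hx]; exact hadjv y hy
  · by_cases hy : y = v
    · rw [hy, T.adj_comm, ← hadjv x hx, adjB_comm, ne_comm]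
    · exact hadj x y hx hy


/-- every tree on `n + 1` vertices is isomorphic to one given by a parent list from `L` -/
def Covers (n : ℕ) (L : List (List ℕ)) : Prop :=
  ∀ (V : Type) [Fintype V] [DecidableEq V] (T : SimpleGraph V), T.IsTree →
    Fintype.card V = n + 1 → ∃ l ∈ L, l.length = n ∧ Nonempty (T ≃g ofPar (n + 1) l)

def validCheck (n : ℕ) (L : List (List ℕ)) : Bool :=
  L.all fun l => decide (l.length = n) && (List.range n).all fun i => decide (l.getD i 0 ≤ i)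

theorem valid_of_check {n : ℕ} {L : List (List ℕ)} (h : validCheck n L = true) :
    ∀ l ∈ L, l.length = n ∧ ∀ i < n, l.getD i 0 ≤ i := by
  intro l hl
  unfold validCheck at h
  rw [List.all_eq_true] at h
  have := h l hl
  simp only [Bool.and_eq_true, decide_eq_true_eq, List.all_eq_true, List.mem_range] at this
  exact this

/-- the checks for the step from `n` to `n + 1` edges -/
def stepCheck (n : ℕ) (D : List (List ℕ × List (List ℕ × List ℕ))) (L' : List (List ℕ)) : Bool :=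
  D.all fun d => (List.range (n + 1)).all fun k =>
    match d.2[k]? with
    | none => false
    | some e => isoCheck (n + 2) (d.1 ++ [k]) e.1 e.2 && decide (e.1 ∈ L')

theorem covers_zero : Covers 0 [[]] := by
  intro V _ _ T _ hcard
  refine ⟨[], by simp, rfl, ?_⟩
  have e : V ≃ Fin 1 := Fintype.equivFinOfCardEq (by simpa using hcard)
  refine ⟨⟨e, ?_⟩⟩
  intro a b
  have hab : a = b := by
    apply e.injective
    exact Subsingleton.elim _ _
  subst hab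
  simp

theorem covers_step {n : ℕ} {D : List (List ℕ × List (List ℕ × List ℕ))} {L' : List (List ℕ)}
    (hC : Covers n (D.map Prod.fst)) (hV : validCheck n (D.map Prod.fst) = true)
    (hS : stepCheck n D L' = true) (hV' : validCheck (n + 1) L' = true) : Covers (n + 1) L' := by
  intro V _ _ T hT hcard
  have hval := valid_of_check hV
  have hP : ∀ l, l ∈ D.map Prod.fst → ∀ a ∈ l, a ≤ n := by
    intro l hl a ha
    obtain ⟨i, hi, rfl⟩ := List.mem_iff_getElem.1 ha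
    have h1 := hval l hl
    have h2 := h1.2 i (by omega)
    rw [List.getD_eq_getElem _ _ hi] at h2
    omega
  obtain ⟨l, hl, k, hk, hlen, ⟨e⟩⟩ := exists_extension hT n hcard (fun l => l ∈ D.map Prod.fst) hP
    (fun W _ _ T' hT' hc => hC W T' hT' hc)
  rw [List.mem_map] at hl
  obtain ⟨d, hd, hdl⟩ := hl
  unfold stepCheck at hS
  rw [List.all_eq_true] at hS
  have h1 := hS d hd
  rw [List.all_eq_true] at h1
  have h2 := h1 k (List.mem_range.2 (by omega))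
  rcases h3 : d.2[k]? with _ | en
  · rw [h3] at h2; simp at h2
  · rw [h3] at h2
    simp only [Bool.and_eq_true, decide_eq_true_eq] at h2
    obtain ⟨e'⟩ := iso_of_isoCheck h2.1
    rw [hdl] at e'
    exact ⟨en.1, h2.2, (valid_of_check hV' _ h2.2).1, ⟨e.trans e'⟩⟩

/-- number of edges of the parent-list graph inside the vertex set coded by the bits of `m`;
`i` is the index of the first child -/
def cnt : List ℕ → ℕ → ℕ → ℕ
  | [], _, _ => 0
  | p :: t, i, m => (if m.testBit i && m.testBit p then 1 else 0) + cnt t (i + 1) m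

/-- number of ones among the lowest `n` bits of `m` -/
def pc : ℕ → ℕ → ℕ
  | 0, _ => 0
  | n + 1, m => (if m.testBit n then 1 else 0) + pc n m

/-- number and total size of the 1-nearly independent sets with code below `N` -/
def stat (n : ℕ) (l : List ℕ) : ℕ → ℕ × ℕ
  | 0 => (0, 0)
  | N + 1 =>
    let r := stat n l N
    if cnt l 1 N = 1 then (r.1 + 1, r.2 + pc (n + 1) N) else r

theorem cnt_eq (l : List ℕ) (i m : ℕ) :
    cnt l i m = ((Finset.range l.length).filter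
      (fun k => m.testBit (k + i) = true ∧ m.testBit (l.getD k 0) = true)).card := by
  induction l generalizing i with
  | nil => simp [cnt]
  | cons p t ih =>
    rw [cnt, ih (i + 1), Finset.card_filter, Finset.card_filter, List.length_cons,
      Finset.sum_range_succ']
    rw [add_comm]
    congr 1
    · refine Finset.sum_congr rfl (fun k _ => ?_)
      have : k + 1 + i = k + (i + 1) := by ring
      rw [this]
      simp
    · simp

/-- the vertex set coded by `m` -/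
def setOf' (n m : ℕ) : Finset (Fin n) := {i : Fin n | m.testBit i = true}

theorem mem_setOf' {n m : ℕ} {i : Fin n} : i ∈ setOf' n m ↔ m.testBit i = true := by
  simp [setOf']

theorem pc_eq (n m : ℕ) : pc n m = (setOf' n m).card := by
  have : pc n m = ((Finset.range n).filter (fun k => m.testBit k = true)).card := by
    induction n with
    | zero => simp [pc]
    | succ n ih =>
      rw [pc, ih, Finset.range_add_one, Finset.filter_insert]
      split_ifs with h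
      · rw [Finset.card_insert_of_notMem (by simp)]; ring
      · simp
  rw [this]
  refine Finset.card_bij' (fun k hk => (⟨k, by simpa using (Finset.mem_filter.1 hk).1⟩ : Fin n))
    (fun i _ => (i : ℕ)) ?_ ?_ ?_ ?_
  · intro k hk; rw [mem_setOf']; exact (Finset.mem_filter.1 hk).2
  · intro i hi; rw [mem_setOf'] at hi; simpa using hi
  · intro k hk; rfl
  · intro i hi; rfl

theorem adj_ofPar {n : ℕ} {l : List ℕ} (hlen : l.length = n) (hl : ∀ i < n, l.getD i 0 ≤ i)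
    (x y : Fin (n + 1)) : (ofPar (n + 1) l).Adj x y ↔
      ∃ k < n, ((x : ℕ) = k + 1 ∧ (y : ℕ) = l.getD k 0) ∨ ((y : ℕ) = k + 1 ∧ (x : ℕ) = l.getD k 0) := by
  change (x ≠ y ∧ adjB l x y = true) ↔ _
  unfold adjB
  simp only [Bool.or_eq_true, Bool.and_eq_true, decide_eq_true_eq]
  constructor
  · rintro ⟨_, ⟨h1, h2⟩ | ⟨h1, h2⟩⟩
    · obtain ⟨h3, h4⟩ := List.getElem?_eq_some_iff.1 h2
      refine ⟨(x : ℕ) - 1, by omega, Or.inl ⟨by omega, ?_⟩⟩
      rw [List.getD_eq_getElem _ _ h3, h4]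
    · obtain ⟨h3, h4⟩ := List.getElem?_eq_some_iff.1 h2
      refine ⟨(y : ℕ) - 1, by omega, Or.inr ⟨by omega, ?_⟩⟩
      rw [List.getD_eq_getElem _ _ h3, h4]
  · rintro ⟨k, hk, ⟨h1, h2⟩ | ⟨h1, h2⟩⟩
    · have h3 := hl k hk
      have hk' : k < l.length := by omega
      refine ⟨?_, Or.inl ⟨by omega, ?_⟩⟩
      · intro h
        have : (x : ℕ) = y := by rw [h]
        omega
      · have : (x : ℕ) - 1 = k := by omega
        rw [this, h2, List.getD_eq_getElem _ _ hk', List.getElem?_eq_getElem hk']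
    · have h3 := hl k hk
      have hk' : k < l.length := by omega
      refine ⟨?_, Or.inr ⟨by omega, ?_⟩⟩
      · intro h
        have : (x : ℕ) = y := by rw [h]
        omega
      · have : (y : ℕ) - 1 = k := by omega
        rw [this, h2, List.getD_eq_getElem _ _ hk', List.getElem?_eq_getElem hk']

theorem near_iff_cnt {n : ℕ} {l : List ℕ} (hlen : l.length = n) (hl : ∀ i < n, l.getD i 0 ≤ i)
    (m : ℕ) : setOf' (n + 1) m ∈ oneNearlyIndepSets (ofPar (n + 1) l) ↔ cnt l 1 m = 1 := by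
  rw [cnt_eq, hlen, Finset.card_eq_one, mem_oneNearlyIndepSets]
  constructor
  · rintro ⟨u, v, huv, hu, hv, h⟩
    rw [adj_ofPar hlen hl] at huv
    obtain ⟨k, hk, hk'⟩ := huv
    rw [mem_setOf'] at hu hv
    refine ⟨k, ?_⟩
    ext k'
    rw [Finset.mem_filter, Finset.mem_range, Finset.mem_singleton]
    constructor
    · rintro ⟨h1, h2, h3⟩
      have hlk := hl k hk
      have hlk' := hl k' h1
      have hadj : (ofPar (n + 1) l).Adj ⟨k' + 1, by omega⟩ ⟨l.getD k' 0, by omega⟩ := by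
        rw [adj_ofPar hlen hl]
        exact ⟨k', h1, Or.inl ⟨rfl, rfl⟩⟩
      have h4 := h _ _ hadj (by rw [mem_setOf']; exact h2) (by rw [mem_setOf']; exact h3)
      rcases h4 with ⟨h5, h6⟩ | ⟨h5, h6⟩
      · have h5' : k' + 1 = (u : ℕ) := congrArg Fin.val h5
        have h6' : l.getD k' 0 = (v : ℕ) := congrArg Fin.val h6
        rcases hk' with ⟨h7, h8⟩ | ⟨h7, h8⟩ <;> omega
      · have h5' : k' + 1 = (v : ℕ) := congrArg Fin.val h5
        have h6' : l.getD k' 0 = (u : ℕ) := congrArg Fin.val h6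
        rcases hk' with ⟨h7, h8⟩ | ⟨h7, h8⟩ <;> omega
    · rintro rfl
      rcases hk' with ⟨h7, h8⟩ | ⟨h7, h8⟩
      · exact ⟨hk, by rw [← h7]; exact hu, by rw [← h8]; exact hv⟩
      · exact ⟨hk, by rw [← h7]; exact hv, by rw [← h8]; exact hu⟩
  · rintro ⟨k, hk⟩
    have hk1 : k ∈ (Finset.range n).filter
      (fun k => m.testBit (k + 1) = true ∧ m.testBit (l.getD k 0) = true) := by rw [hk]; simp
    rw [Finset.mem_filter, Finset.mem_range] at hk1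
    obtain ⟨h1, h2, h3⟩ := hk1
    have hlk := hl k h1
    refine ⟨⟨k + 1, by omega⟩, ⟨l.getD k 0, by omega⟩, ?_, ?_, ?_, ?_⟩
    · rw [adj_ofPar hlen hl]
      exact ⟨k, h1, Or.inl ⟨rfl, rfl⟩⟩
    · rw [mem_setOf']; exact h2
    · rw [mem_setOf']; exact h3
    · intro x y hxy hx hy
      rw [adj_ofPar hlen hl] at hxy
      rw [mem_setOf'] at hx hy
      obtain ⟨k', hk', h4⟩ := hxy
      have : k' = k := by
        have h5 : k' ∈ (Finset.range n).filter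
          (fun k => m.testBit (k + 1) = true ∧ m.testBit (l.getD k 0) = true) := by
          rw [Finset.mem_filter, Finset.mem_range]
          rcases h4 with ⟨h7, h8⟩ | ⟨h7, h8⟩
          · exact ⟨hk', by rw [← h7]; exact hx, by rw [← h8]; exact hy⟩
          · exact ⟨hk', by rw [← h7]; exact hy, by rw [← h8]; exact hx⟩
        rw [hk, Finset.mem_singleton] at h5
        exact h5
      subst this
      rcases h4 with ⟨h7, h8⟩ | ⟨h7, h8⟩
      · exact Or.inl ⟨Fin.ext h7, Fin.ext h8⟩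
      · exact Or.inr ⟨Fin.ext h8, Fin.ext h7⟩

theorem setOf'_inj {n m m' : ℕ} (hm : m < 2 ^ n) (hm' : m' < 2 ^ n)
    (h : setOf' n m = setOf' n m') : m = m' := by
  apply Nat.eq_of_testBit_eq
  intro i
  by_cases hi : i < n
  · have h1 : (⟨i, hi⟩ : Fin n) ∈ setOf' n m ↔ (⟨i, hi⟩ : Fin n) ∈ setOf' n m' := by rw [h]
    rw [mem_setOf', mem_setOf'] at h1
    exact Bool.eq_iff_iff.2 h1
  · have hpow : 2 ^ n ≤ 2 ^ i := Nat.pow_le_pow_right (by norm_num) (by omega)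
    rw [Nat.testBit_lt_two_pow (lt_of_lt_of_le hm hpow),
      Nat.testBit_lt_two_pow (lt_of_lt_of_le hm' hpow)]

theorem sum_over_codes (n : ℕ) (F : Finset (Fin n) → ℕ) :
    ∑ S : Finset (Fin n), F S = ∑ m ∈ Finset.range (2 ^ n), F (setOf' n m) := by
  classical
  symm
  have hinj : Set.InjOn (setOf' n) (Finset.range (2 ^ n) : Set ℕ) := by
    intro a ha b hb hab
    simp only [Finset.coe_range, Set.mem_Iio] at ha hb
    exact setOf'_inj ha hb hab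
  rw [← Finset.sum_image (g := setOf' n) (f := F) hinj]
  refine Finset.sum_congr ?_ (fun _ _ => rfl)
  apply Finset.eq_univ_of_card
  rw [Finset.card_image_of_injOn hinj, Finset.card_range, Fintype.card_finset, Fintype.card_fin]

theorem stat_eq {n : ℕ} {l : List ℕ} (N : ℕ) :
    stat n l N = (∑ m ∈ Finset.range N, (if cnt l 1 m = 1 then 1 else 0),
      ∑ m ∈ Finset.range N, (if cnt l 1 m = 1 then pc (n + 1) m else 0)) := by
  induction N with
  | zero => simp [stat]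
  | succ N ih =>
    rw [stat, Finset.sum_range_succ, Finset.sum_range_succ, ih]
    split_ifs with h
    · rfl
    · simp

theorem stat_spec {n : ℕ} {l : List ℕ} (hlen : l.length = n) (hl : ∀ i < n, l.getD i 0 ≤ i) :
    stat n l (2 ^ (n + 1)) = (sigma1 (ofPar (n + 1) l), totalSize (ofPar (n + 1) l)) := by
  classical
  rw [stat_eq]
  have key : ∀ F : Finset (Fin (n + 1)) → ℕ, ∑ S ∈ oneNearlyIndepSets (ofPar (n + 1) l), F S =
      ∑ m ∈ Finset.range (2 ^ (n + 1)), (if cnt l 1 m = 1 then F (setOf' (n + 1) m) else 0) := by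
    intro F
    have h1 : ∑ S ∈ oneNearlyIndepSets (ofPar (n + 1) l), F S =
        ∑ S : Finset (Fin (n + 1)), if S ∈ oneNearlyIndepSets (ofPar (n + 1) l) then F S else 0 := by
      rw [← Finset.sum_filter]
      congr 1
      ext S; simp
    rw [h1, sum_over_codes]
    refine Finset.sum_congr rfl (fun m _ => ?_)
    by_cases h : cnt l 1 m = 1
    · rw [if_pos h, if_pos ((near_iff_cnt hlen hl m).2 h)]
    · rw [if_neg h, if_neg (fun h' => h ((near_iff_cnt hlen hl m).1 h'))]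
  congr 1
  · have := key (fun _ => 1)
    unfold sigma1
    rw [Finset.card_eq_sum_ones]
    exact this.symm
  · have := key (fun S => S.card)
    unfold totalSize
    rw [this]
    refine Finset.sum_congr rfl (fun m _ => ?_)
    rw [pc_eq]

/-- the final numerical comparison with `R_{n+1}` for one parent list (`n = k + 2`) -/
def finCheck (k : ℕ) (L : List (List ℕ)) : Bool :=
  L.all fun l =>
    let r := stat (k + 2) l (2 ^ (k + 3))
    decide (0 < r.1) && decide (2 * r.2 * (2 ^ k + 2 * k + 1) ≤ ((k + 4) * 2 ^ k + 10 * k + 4) * r.1)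


/-- trees with 0 edges, with the isomorphism data for adding one leaf -/
def D0 : List (List ℕ × List (List ℕ × List ℕ)) :=
  [([], [([0], [0, 1])])]

/-- trees with 1 edges, with the isomorphism data for adding one leaf -/
def D1 : List (List ℕ × List (List ℕ × List ℕ)) :=
  [([0], [([0, 0], [0, 1, 2]), ([0, 0], [1, 0, 2])])]

/-- trees with 2 edges, with the isomorphism data for adding one leaf -/
def D2 : List (List ℕ × List (List ℕ × List ℕ)) :=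
  [([0, 0], [([0, 0, 0], [0, 1, 2, 3]), ([0, 1, 0], [0, 1, 3, 2]), ([0, 1, 0], [0, 3, 1, 2])])]

/-- trees with 3 edges, with the isomorphism data for adding one leaf -/
def D3 : List (List ℕ × List (List ℕ × List ℕ)) :=
  [([0, 0, 0], [([0, 0, 0, 0], [0, 1, 2, 3, 4]), ([0, 1, 1, 0], [1, 0, 2, 3, 4]), ([0, 1, 1, 0], [1, 2, 0, 3, 4]), ([0, 1, 1, 0], [1, 2, 3, 0, 4])]),
   ([0, 1, 0], [([0, 1, 1, 0], [1, 0, 4, 2, 3]), ([0, 1, 1, 0], [0, 1, 2, 4, 3]), ([0, 1, 0, 3], [1, 0, 3, 2, 4]), ([0, 1, 0, 3], [0, 1, 2, 3, 4])])]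

/-- trees with 4 edges, with the isomorphism data for adding one leaf -/
def D4 : List (List ℕ × List (List ℕ × List ℕ)) :=
  [([0, 0, 0, 0], [([0, 0, 0, 0, 0], [0, 1, 2, 3, 4, 5]), ([0, 1, 1, 1, 0], [1, 0, 2, 3, 4, 5]), ([0, 1, 1, 1, 0], [1, 2, 0, 3, 4, 5]), ([0, 1, 1, 1, 0], [1, 2, 3, 0, 4, 5]), ([0, 1, 1, 1, 0], [1, 2, 3, 4, 0, 5])]),
   ([0, 1, 1, 0], [([0, 1, 1, 0, 0], [0, 1, 2, 3, 4, 5]), ([0, 1, 1, 1, 0], [0, 1, 2, 3, 5, 4]), ([0, 1, 0, 3, 0], [1, 0, 3, 5, 2, 4]), ([0, 1, 0, 3, 0], [1, 0, 5, 3, 2, 4]), ([0, 1, 1, 0, 4], [0, 1, 2, 3, 4, 5])]),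
   ([0, 1, 0, 3], [([0, 1, 0, 3, 0], [0, 1, 2, 3, 4, 5]), ([0, 1, 1, 0, 4], [0, 1, 2, 4, 5, 3]), ([0, 1, 2, 0, 4], [0, 1, 2, 4, 5, 3]), ([0, 1, 1, 0, 4], [0, 4, 5, 1, 2, 3]), ([0, 1, 2, 0, 4], [0, 4, 5, 1, 2, 3])])]

/-- trees with 5 edges, with the isomorphism data for adding one leaf -/
def D5 : List (List ℕ × List (List ℕ × List ℕ)) :=
  [([0, 0, 0, 0, 0], [([0, 0, 0, 0, 0, 0], [0, 1, 2, 3, 4, 5, 6]), ([0, 1, 1, 1, 1, 0], [1, 0, 2, 3, 4, 5, 6]), ([0, 1, 1, 1, 1, 0], [1, 2, 0, 3, 4, 5, 6]), ([0, 1, 1, 1, 1, 0], [1, 2, 3, 0, 4, 5, 6]), ([0, 1, 1, 1, 1, 0], [1, 2, 3, 4, 0, 5, 6]), ([0, 1, 1, 1, 1, 0], [1, 2, 3, 4, 5, 0, 6])]),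
   ([0, 1, 1, 1, 0], [([0, 1, 1, 1, 0, 0], [0, 1, 2, 3, 4, 5, 6]), ([0, 1, 1, 1, 1, 0], [0, 1, 2, 3, 4, 6, 5]), ([0, 1, 0, 3, 0, 0], [1, 0, 3, 5, 6, 2, 4]), ([0, 1, 0, 3, 0, 0], [1, 0, 5, 3, 6, 2, 4]), ([0, 1, 0, 3, 0, 0], [1, 0, 5, 6, 3, 2, 4]), ([0, 1, 1, 1, 0, 5], [0, 1, 2, 3, 4, 5, 6])]),
   ([0, 1, 1, 0, 0], [([0, 1, 1, 1, 0, 0], [1, 0, 5, 6, 2, 3, 4]), ([0, 1, 1, 1, 0, 0], [0, 1, 2, 3, 5, 6, 4]), ([0, 1, 1, 0, 4, 0], [1, 0, 4, 6, 2, 3, 5]), ([0, 1, 1, 0, 4, 0], [1, 0, 6, 4, 2, 3, 5]), ([0, 1, 1, 0, 4, 0], [0, 1, 2, 3, 4, 6, 5]), ([0, 1, 1, 0, 4, 0], [0, 1, 2, 3, 6, 4, 5])]),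
   ([0, 1, 0, 3, 0], [([0, 1, 0, 3, 0, 0], [0, 1, 2, 3, 4, 5, 6]), ([0, 1, 1, 0, 4, 0], [0, 1, 2, 4, 5, 6, 3]), ([0, 1, 2, 1, 0, 5], [1, 0, 5, 2, 3, 4, 6]), ([0, 1, 1, 0, 4, 0], [0, 4, 5, 1, 2, 6, 3]), ([0, 1, 2, 1, 0, 5], [1, 2, 3, 0, 5, 4, 6]), ([0, 1, 0, 3, 0, 5], [0, 1, 2, 3, 4, 5, 6])]),
   ([0, 1, 1, 0, 4], [([0, 1, 1, 0, 4, 0], [0, 1, 2, 3, 4, 5, 6]), ([0, 1, 1, 1, 0, 5], [0, 1, 2, 3, 5, 6, 4]), ([0, 1, 2, 1, 0, 5], [0, 1, 2, 4, 5, 6, 3]), ([0, 1, 2, 1, 0, 5], [0, 1, 4, 2, 5, 6, 3]), ([0, 1, 1, 0, 4, 4], [0, 1, 2, 3, 4, 5, 6]), ([0, 1, 2, 2, 0, 5], [1, 2, 3, 4, 0, 5, 6])]),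
   ([0, 1, 2, 0, 4], [([0, 1, 2, 1, 0, 5], [1, 0, 5, 6, 2, 3, 4]), ([0, 1, 2, 1, 0, 5], [0, 1, 2, 3, 5, 6, 4]), ([0, 1, 2, 2, 0, 5], [0, 1, 2, 3, 5, 6, 4]), ([0, 1, 2, 0, 4, 5], [1, 0, 4, 5, 2, 3, 6]), ([0, 1, 2, 2, 0, 5], [1, 0, 5, 6, 2, 3, 4]), ([0, 1, 2, 0, 4, 5], [0, 1, 2, 3, 4, 5, 6])])]

/-- trees with 6 edges, with the isomorphism data for adding one leaf -/
def D6 : List (List ℕ × List (List ℕ × List ℕ)) :=
  [([0, 0, 0, 0, 0, 0], [([0, 0, 0, 0, 0, 0, 0], [0, 1, 2, 3, 4, 5, 6, 7]), ([0, 1, 1, 1, 1, 1, 0], [1, 0, 2, 3, 4, 5, 6, 7]), ([0, 1, 1, 1, 1, 1, 0], [1, 2, 0, 3, 4, 5, 6, 7]), ([0, 1, 1, 1, 1, 1, 0], [1, 2, 3, 0, 4, 5, 6, 7]), ([0, 1, 1, 1, 1, 1, 0], [1, 2, 3, 4, 0, 5, 6, 7]), ([0, 1, 1, 1, 1, 1, 0], [1, 2, 3, 4, 5, 0, 6, 7]), ([0, 1, 1, 1, 1, 1, 0], [1, 2, 3, 4, 5, 6, 0, 7])]),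
   ([0, 1, 1, 1, 1, 0], [([0, 1, 1, 1, 1, 0, 0], [0, 1, 2, 3, 4, 5, 6, 7]), ([0, 1, 1, 1, 1, 1, 0], [0, 1, 2, 3, 4, 5, 7, 6]), ([0, 1, 0, 3, 0, 0, 0], [1, 0, 3, 5, 6, 7, 2, 4]), ([0, 1, 0, 3, 0, 0, 0], [1, 0, 5, 3, 6, 7, 2, 4]), ([0, 1, 0, 3, 0, 0, 0], [1, 0, 5, 6, 3, 7, 2, 4]), ([0, 1, 0, 3, 0, 0, 0], [1, 0, 5, 6, 7, 3, 2, 4]), ([0, 1, 1, 1, 1, 0, 6], [0, 1, 2, 3, 4, 5, 6, 7])]),
   ([0, 1, 1, 1, 0, 0], [([0, 1, 1, 1, 0, 0, 0], [0, 1, 2, 3, 4, 5, 6, 7]), ([0, 1, 1, 1, 1, 0, 0], [0, 1, 2, 3, 4, 6, 7, 5]), ([0, 1, 1, 0, 4, 0, 0], [1, 0, 4, 6, 7, 2, 3, 5]), ([0, 1, 1, 0, 4, 0, 0], [1, 0, 6, 4, 7, 2, 3, 5]), ([0, 1, 1, 0, 4, 0, 0], [1, 0, 6, 7, 4, 2, 3, 5]), ([0, 1, 1, 1, 0, 5, 0], [0, 1, 2, 3, 4, 5, 7, 6]), ([0, 1, 1, 1, 0, 5, 0], [0, 1, 2, 3, 4, 7, 5, 6])]),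
   ([0, 1, 0, 3, 0, 0], [([0, 1, 0, 3, 0, 0, 0], [0, 1, 2, 3, 4, 5, 6, 7]), ([0, 1, 1, 0, 4, 0, 0], [0, 1, 2, 4, 5, 6, 7, 3]), ([0, 1, 2, 1, 1, 0, 6], [1, 0, 6, 2, 3, 4, 5, 7]), ([0, 1, 1, 0, 4, 0, 0], [0, 4, 5, 1, 2, 6, 7, 3]), ([0, 1, 2, 1, 1, 0, 6], [1, 2, 3, 0, 6, 4, 5, 7]), ([0, 1, 0, 3, 0, 5, 0], [0, 1, 2, 3, 4, 5, 7, 6]), ([0, 1, 0, 3, 0, 5, 0], [0, 1, 2, 3, 4, 7, 5, 6])]),
   ([0, 1, 1, 1, 0, 5], [([0, 1, 1, 1, 0, 5, 0], [0, 1, 2, 3, 4, 5, 6, 7]), ([0, 1, 1, 1, 1, 0, 6], [0, 1, 2, 3, 4, 6, 7, 5]), ([0, 1, 2, 1, 1, 0, 6], [0, 1, 2, 4, 5, 6, 7, 3]), ([0, 1, 2, 1, 1, 0, 6], [0, 1, 4, 2, 5, 6, 7, 3]), ([0, 1, 2, 1, 1, 0, 6], [0, 1, 4, 5, 2, 6, 7, 3]), ([0, 1, 1, 1, 0, 5, 5], [0, 1, 2, 3, 4, 5, 6, 7]), ([0, 1, 2, 2, 2, 0, 6], [1, 2, 3, 4, 5, 0, 6, 7])]),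
   ([0, 1, 1, 0, 4, 0], [([0, 1, 1, 0, 4, 0, 0], [0, 1, 2, 3, 4, 5, 6, 7]), ([0, 1, 1, 1, 0, 5, 0], [0, 1, 2, 3, 5, 6, 7, 4]), ([0, 1, 2, 1, 0, 5, 0], [0, 1, 2, 4, 5, 6, 7, 3]), ([0, 1, 2, 1, 0, 5, 0], [0, 1, 4, 2, 5, 6, 7, 3]), ([0, 1, 1, 0, 4, 4, 0], [0, 1, 2, 3, 4, 5, 7, 6]), ([0, 1, 2, 2, 1, 0, 6], [1, 2, 3, 4, 0, 6, 5, 7]), ([0, 1, 1, 0, 4, 0, 6], [0, 1, 2, 3, 4, 5, 6, 7])]),
   ([0, 1, 2, 1, 0, 5], [([0, 1, 2, 1, 0, 5, 0], [0, 1, 2, 3, 4, 5, 6, 7]), ([0, 1, 2, 1, 1, 0, 6], [0, 1, 2, 3, 4, 6, 7, 5]), ([0, 1, 2, 2, 1, 0, 6], [0, 1, 2, 3, 5, 6, 7, 4]), ([0, 1, 2, 0, 4, 5, 0], [1, 0, 4, 5, 7, 2, 3, 6]), ([0, 1, 2, 1, 4, 0, 6], [0, 1, 2, 3, 4, 6, 7, 5]), ([0, 1, 2, 2, 0, 5, 0], [1, 0, 5, 6, 7, 2, 3, 4]), ([0, 1, 2, 1, 0, 5, 6], [0, 1, 2, 3, 4, 5, 6, 7])]),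
   ([0, 1, 0, 3, 0, 5], [([0, 1, 0, 3, 0, 5, 0], [0, 1, 2, 3, 4, 5, 6, 7]), ([0, 1, 1, 0, 4, 0, 6], [0, 1, 2, 4, 5, 6, 7, 3]), ([0, 1, 2, 1, 4, 0, 6], [1, 0, 6, 2, 3, 4, 5, 7]), ([0, 1, 1, 0, 4, 0, 6], [0, 4, 5, 1, 2, 6, 7, 3]), ([0, 1, 2, 1, 4, 0, 6], [1, 2, 3, 0, 6, 4, 5, 7]), ([0, 1, 1, 0, 4, 0, 6], [0, 4, 5, 6, 7, 1, 2, 3]), ([0, 1, 2, 1, 4, 0, 6], [1, 2, 3, 4, 5, 0, 6, 7])]),
   ([0, 1, 1, 0, 4, 4], [([0, 1, 1, 0, 4, 4, 0], [0, 1, 2, 3, 4, 5, 6, 7]), ([0, 1, 1, 1, 0, 5, 5], [0, 1, 2, 3, 5, 6, 7, 4]), ([0, 1, 2, 2, 0, 5, 0], [1, 0, 5, 7, 2, 3, 4, 6]), ([0, 1, 2, 2, 0, 5, 0], [1, 0, 7, 5, 2, 3, 4, 6]), ([0, 1, 1, 1, 0, 5, 5], [0, 5, 6, 7, 1, 2, 3, 4]), ([0, 1, 2, 2, 0, 5, 0], [1, 2, 3, 4, 0, 5, 7, 6]), ([0, 1, 2, 2, 0, 5, 0], [1, 2, 3, 4, 0, 7, 5, 6])]),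
   ([0, 1, 2, 2, 0, 5], [([0, 1, 2, 2, 0, 5, 0], [0, 1, 2, 3, 4, 5, 6, 7]), ([0, 1, 2, 2, 1, 0, 6], [0, 1, 2, 3, 4, 6, 7, 5]), ([0, 1, 2, 2, 2, 0, 6], [0, 1, 2, 3, 4, 6, 7, 5]), ([0, 1, 2, 1, 0, 5, 6], [5, 0, 1, 2, 4, 6, 7, 3]), ([0, 1, 2, 1, 0, 5, 6], [5, 0, 1, 4, 2, 6, 7, 3]), ([0, 1, 2, 2, 0, 5, 5], [0, 1, 2, 3, 4, 5, 6, 7]), ([0, 1, 2, 2, 0, 5, 6], [0, 1, 2, 3, 4, 5, 6, 7])]),
   ([0, 1, 2, 0, 4, 5], [([0, 1, 2, 0, 4, 5, 0], [0, 1, 2, 3, 4, 5, 6, 7]), ([0, 1, 2, 1, 0, 5, 6], [0, 1, 2, 3, 5, 6, 7, 4]), ([0, 1, 2, 2, 0, 5, 6], [0, 1, 2, 3, 5, 6, 7, 4]), ([0, 1, 2, 3, 0, 5, 6], [0, 1, 2, 3, 5, 6, 7, 4]), ([0, 1, 2, 1, 0, 5, 6], [0, 5, 6, 7, 1, 2, 3, 4]), ([0, 1, 2, 2, 0, 5, 6], [0, 5, 6, 7, 1, 2, 3, 4]), ([0, 1, 2, 3, 0, 5, 6], [0, 5, 6, 7, 1, 2, 3, 4])])]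

/-- trees with 7 edges, with the isomorphism data for adding one leaf -/
def D7 : List (List ℕ × List (List ℕ × List ℕ)) :=
  [([0, 0, 0, 0, 0, 0, 0], [([0, 0, 0, 0, 0, 0, 0, 0], [0, 1, 2, 3, 4, 5, 6, 7, 8]), ([0, 1, 1, 1, 1, 1, 1, 0], [1, 0, 2, 3, 4, 5, 6, 7, 8]), ([0, 1, 1, 1, 1, 1, 1, 0], [1, 2, 0, 3, 4, 5, 6, 7, 8]), ([0, 1, 1, 1, 1, 1, 1, 0], [1, 2, 3, 0, 4, 5, 6, 7, 8]), ([0, 1, 1, 1, 1, 1, 1, 0], [1, 2, 3, 4, 0, 5, 6, 7, 8]), ([0, 1, 1, 1, 1, 1, 1, 0], [1, 2, 3, 4, 5, 0, 6, 7, 8]), ([0, 1, 1, 1, 1, 1, 1, 0], [1, 2, 3, 4, 5, 6, 0, 7, 8]), ([0, 1, 1, 1, 1, 1, 1, 0], [1, 2, 3, 4, 5, 6, 7, 0, 8])]),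
   ([0, 1, 1, 1, 1, 1, 0], [([0, 1, 1, 1, 1, 1, 0, 0], [0, 1, 2, 3, 4, 5, 6, 7, 8]), ([0, 1, 1, 1, 1, 1, 1, 0], [0, 1, 2, 3, 4, 5, 6, 8, 7]), ([0, 1, 0, 3, 0, 0, 0, 0], [1, 0, 3, 5, 6, 7, 8, 2, 4]), ([0, 1, 0, 3, 0, 0, 0, 0], [1, 0, 5, 3, 6, 7, 8, 2, 4]), ([0, 1, 0, 3, 0, 0, 0, 0], [1, 0, 5, 6, 3, 7, 8, 2, 4]), ([0, 1, 0, 3, 0, 0, 0, 0], [1, 0, 5, 6, 7, 3, 8, 2, 4]), ([0, 1, 0, 3, 0, 0, 0, 0], [1, 0, 5, 6, 7, 8, 3, 2, 4]), ([0, 1, 1, 1, 1, 1, 0, 7], [0, 1, 2, 3, 4, 5, 6, 7, 8])]),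
   ([0, 1, 1, 1, 1, 0, 0], [([0, 1, 1, 1, 1, 0, 0, 0], [0, 1, 2, 3, 4, 5, 6, 7, 8]), ([0, 1, 1, 1, 1, 1, 0, 0], [0, 1, 2, 3, 4, 5, 7, 8, 6]), ([0, 1, 1, 0, 4, 0, 0, 0], [1, 0, 4, 6, 7, 8, 2, 3, 5]), ([0, 1, 1, 0, 4, 0, 0, 0], [1, 0, 6, 4, 7, 8, 2, 3, 5]), ([0, 1, 1, 0, 4, 0, 0, 0], [1, 0, 6, 7, 4, 8, 2, 3, 5]), ([0, 1, 1, 0, 4, 0, 0, 0], [1, 0, 6, 7, 8, 4, 2, 3, 5]), ([0, 1, 1, 1, 1, 0, 6, 0], [0, 1, 2, 3, 4, 5, 6, 8, 7]), ([0, 1, 1, 1, 1, 0, 6, 0], [0, 1, 2, 3, 4, 5, 8, 6, 7])]),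
   ([0, 1, 0, 3, 0, 0, 0], [([0, 1, 0, 3, 0, 0, 0, 0], [0, 1, 2, 3, 4, 5, 6, 7, 8]), ([0, 1, 1, 0, 4, 0, 0, 0], [0, 1, 2, 4, 5, 6, 7, 8, 3]), ([0, 1, 2, 1, 1, 1, 0, 7], [1, 0, 7, 2, 3, 4, 5, 6, 8]), ([0, 1, 1, 0, 4, 0, 0, 0], [0, 4, 5, 1, 2, 6, 7, 8, 3]), ([0, 1, 2, 1, 1, 1, 0, 7], [1, 2, 3, 0, 7, 4, 5, 6, 8]), ([0, 1, 0, 3, 0, 5, 0, 0], [0, 1, 2, 3, 4, 5, 7, 8, 6]), ([0, 1, 0, 3, 0, 5, 0, 0], [0, 1, 2, 3, 4, 7, 5, 8, 6]), ([0, 1, 0, 3, 0, 5, 0, 0], [0, 1, 2, 3, 4, 7, 8, 5, 6])]),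
   ([0, 1, 1, 1, 1, 0, 6], [([0, 1, 1, 1, 1, 0, 6, 0], [0, 1, 2, 3, 4, 5, 6, 7, 8]), ([0, 1, 1, 1, 1, 1, 0, 7], [0, 1, 2, 3, 4, 5, 7, 8, 6]), ([0, 1, 2, 1, 1, 1, 0, 7], [0, 1, 2, 4, 5, 6, 7, 8, 3]), ([0, 1, 2, 1, 1, 1, 0, 7], [0, 1, 4, 2, 5, 6, 7, 8, 3]), ([0, 1, 2, 1, 1, 1, 0, 7], [0, 1, 4, 5, 2, 6, 7, 8, 3]), ([0, 1, 2, 1, 1, 1, 0, 7], [0, 1, 4, 5, 6, 2, 7, 8, 3]), ([0, 1, 1, 1, 1, 0, 6, 6], [0, 1, 2, 3, 4, 5, 6, 7, 8]), ([0, 1, 2, 2, 2, 2, 0, 7], [1, 2, 3, 4, 5, 6, 0, 7, 8])]),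
   ([0, 1, 1, 1, 0, 0, 0], [([0, 1, 1, 1, 1, 0, 0, 0], [1, 0, 6, 7, 8, 2, 3, 4, 5]), ([0, 1, 1, 1, 1, 0, 0, 0], [0, 1, 2, 3, 4, 6, 7, 8, 5]), ([0, 1, 1, 1, 0, 5, 0, 0], [1, 0, 5, 7, 8, 2, 3, 4, 6]), ([0, 1, 1, 1, 0, 5, 0, 0], [1, 0, 7, 5, 8, 2, 3, 4, 6]), ([0, 1, 1, 1, 0, 5, 0, 0], [1, 0, 7, 8, 5, 2, 3, 4, 6]), ([0, 1, 1, 1, 0, 5, 0, 0], [0, 1, 2, 3, 4, 5, 7, 8, 6]), ([0, 1, 1, 1, 0, 5, 0, 0], [0, 1, 2, 3, 4, 7, 5, 8, 6]), ([0, 1, 1, 1, 0, 5, 0, 0], [0, 1, 2, 3, 4, 7, 8, 5, 6])]),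
   ([0, 1, 1, 0, 4, 0, 0], [([0, 1, 1, 0, 4, 0, 0, 0], [0, 1, 2, 3, 4, 5, 6, 7, 8]), ([0, 1, 1, 1, 0, 5, 0, 0], [0, 1, 2, 3, 5, 6, 7, 8, 4]), ([0, 1, 2, 1, 1, 0, 6, 0], [1, 0, 6, 8, 2, 3, 4, 5, 7]), ([0, 1, 2, 1, 1, 0, 6, 0], [1, 0, 8, 6, 2, 3, 4, 5, 7]), ([0, 1, 1, 0, 4, 4, 0, 0], [0, 1, 2, 3, 4, 5, 7, 8, 6]), ([0, 1, 2, 2, 1, 1, 0, 7], [1, 2, 3, 4, 0, 7, 5, 6, 8]), ([0, 1, 1, 0, 4, 0, 6, 0], [0, 1, 2, 3, 4, 5, 6, 8, 7]), ([0, 1, 1, 0, 4, 0, 6, 0], [0, 1, 2, 3, 4, 5, 8, 6, 7])]),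
   ([0, 1, 1, 1, 0, 5, 0], [([0, 1, 1, 1, 0, 5, 0, 0], [0, 1, 2, 3, 4, 5, 6, 7, 8]), ([0, 1, 1, 1, 1, 0, 6, 0], [0, 1, 2, 3, 4, 6, 7, 8, 5]), ([0, 1, 2, 1, 1, 0, 6, 0], [0, 1, 2, 4, 5, 6, 7, 8, 3]), ([0, 1, 2, 1, 1, 0, 6, 0], [0, 1, 4, 2, 5, 6, 7, 8, 3]), ([0, 1, 2, 1, 1, 0, 6, 0], [0, 1, 4, 5, 2, 6, 7, 8, 3]), ([0, 1, 1, 1, 0, 5, 5, 0], [0, 1, 2, 3, 4, 5, 6, 8, 7]), ([0, 1, 2, 2, 2, 1, 0, 7], [1, 2, 3, 4, 5, 0, 7, 6, 8]), ([0, 1, 1, 1, 0, 5, 0, 7], [0, 1, 2, 3, 4, 5, 6, 7, 8])]),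
   ([0, 1, 2, 1, 1, 0, 6], [([0, 1, 2, 1, 1, 0, 6, 0], [0, 1, 2, 3, 4, 5, 6, 7, 8]), ([0, 1, 2, 1, 1, 1, 0, 7], [0, 1, 2, 3, 4, 5, 7, 8, 6]), ([0, 1, 2, 2, 1, 1, 0, 7], [0, 1, 2, 3, 5, 6, 7, 8, 4]), ([0, 1, 2, 0, 4, 5, 0, 0], [1, 0, 4, 5, 7, 8, 2, 3, 6]), ([0, 1, 2, 1, 4, 1, 0, 7], [0, 1, 2, 3, 4, 6, 7, 8, 5]), ([0, 1, 2, 1, 4, 1, 0, 7], [0, 1, 2, 3, 6, 4, 7, 8, 5]), ([0, 1, 2, 2, 0, 5, 0, 0], [1, 0, 5, 6, 7, 8, 2, 3, 4]), ([0, 1, 2, 1, 1, 0, 6, 7], [0, 1, 2, 3, 4, 5, 6, 7, 8])]),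
   ([0, 1, 0, 3, 0, 5, 0], [([0, 1, 0, 3, 0, 5, 0, 0], [0, 1, 2, 3, 4, 5, 6, 7, 8]), ([0, 1, 1, 0, 4, 0, 6, 0], [0, 1, 2, 4, 5, 6, 7, 8, 3]), ([0, 1, 2, 1, 4, 1, 0, 7], [1, 0, 7, 2, 3, 4, 5, 6, 8]), ([0, 1, 1, 0, 4, 0, 6, 0], [0, 4, 5, 1, 2, 6, 7, 8, 3]), ([0, 1, 2, 1, 4, 1, 0, 7], [1, 2, 3, 0, 7, 4, 5, 6, 8]), ([0, 1, 1, 0, 4, 0, 6, 0], [0, 4, 5, 6, 7, 1, 2, 8, 3]), ([0, 1, 2, 1, 4, 1, 0, 7], [1, 2, 3, 4, 5, 0, 7, 6, 8]), ([0, 1, 0, 3, 0, 5, 0, 7], [0, 1, 2, 3, 4, 5, 6, 7, 8])]),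
   ([0, 1, 1, 1, 0, 5, 5], [([0, 1, 1, 1, 0, 5, 5, 0], [0, 1, 2, 3, 4, 5, 6, 7, 8]), ([0, 1, 1, 1, 1, 0, 6, 6], [0, 1, 2, 3, 4, 6, 7, 8, 5]), ([0, 1, 2, 2, 0, 5, 0, 0], [1, 0, 5, 7, 8, 2, 3, 4, 6]), ([0, 1, 2, 2, 0, 5, 0, 0], [1, 0, 7, 5, 8, 2, 3, 4, 6]), ([0, 1, 2, 2, 0, 5, 0, 0], [1, 0, 7, 8, 5, 2, 3, 4, 6]), ([0, 1, 1, 1, 0, 5, 5, 5], [0, 1, 2, 3, 4, 5, 6, 7, 8]), ([0, 1, 2, 2, 2, 0, 6, 0], [1, 2, 3, 4, 5, 0, 6, 8, 7]), ([0, 1, 2, 2, 2, 0, 6, 0], [1, 2, 3, 4, 5, 0, 8, 6, 7])]),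
   ([0, 1, 2, 2, 2, 0, 6], [([0, 1, 2, 2, 2, 0, 6, 0], [0, 1, 2, 3, 4, 5, 6, 7, 8]), ([0, 1, 2, 2, 2, 1, 0, 7], [0, 1, 2, 3, 4, 5, 7, 8, 6]), ([0, 1, 2, 2, 2, 2, 0, 7], [0, 1, 2, 3, 4, 5, 7, 8, 6]), ([0, 1, 2, 1, 1, 0, 6, 7], [6, 0, 1, 2, 4, 5, 7, 8, 3]), ([0, 1, 2, 1, 1, 0, 6, 7], [6, 0, 1, 4, 2, 5, 7, 8, 3]), ([0, 1, 2, 1, 1, 0, 6, 7], [6, 0, 1, 4, 5, 2, 7, 8, 3]), ([0, 1, 2, 2, 2, 0, 6, 6], [0, 1, 2, 3, 4, 5, 6, 7, 8]), ([0, 1, 2, 2, 2, 0, 6, 7], [0, 1, 2, 3, 4, 5, 6, 7, 8])]),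
   ([0, 1, 2, 1, 0, 5, 0], [([0, 1, 2, 1, 1, 0, 6, 0], [1, 0, 6, 7, 8, 2, 3, 4, 5]), ([0, 1, 2, 1, 1, 0, 6, 0], [0, 1, 2, 3, 4, 6, 7, 8, 5]), ([0, 1, 2, 2, 1, 0, 6, 0], [0, 1, 2, 3, 5, 6, 7, 8, 4]), ([0, 1, 2, 1, 0, 5, 6, 0], [1, 0, 5, 6, 8, 2, 3, 4, 7]), ([0, 1, 2, 1, 4, 0, 6, 0], [0, 1, 2, 3, 4, 6, 7, 8, 5]), ([0, 1, 2, 2, 1, 0, 6, 0], [1, 0, 6, 7, 8, 2, 3, 5, 4]), ([0, 1, 2, 1, 0, 5, 6, 0], [0, 1, 2, 3, 4, 5, 6, 8, 7]), ([0, 1, 2, 1, 4, 0, 6, 0], [1, 0, 6, 7, 8, 2, 3, 4, 5])]),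
   ([0, 1, 1, 0, 4, 4, 0], [([0, 1, 1, 0, 4, 4, 0, 0], [0, 1, 2, 3, 4, 5, 6, 7, 8]), ([0, 1, 1, 1, 0, 5, 5, 0], [0, 1, 2, 3, 5, 6, 7, 8, 4]), ([0, 1, 2, 2, 1, 0, 6, 0], [1, 0, 6, 8, 2, 3, 4, 5, 7]), ([0, 1, 2, 2, 1, 0, 6, 0], [1, 0, 8, 6, 2, 3, 4, 5, 7]), ([0, 1, 1, 1, 0, 5, 5, 0], [0, 5, 6, 7, 1, 2, 3, 8, 4]), ([0, 1, 2, 2, 1, 0, 6, 0], [1, 2, 3, 4, 0, 6, 8, 5, 7]), ([0, 1, 2, 2, 1, 0, 6, 0], [1, 2, 3, 4, 0, 8, 6, 5, 7]), ([0, 1, 1, 0, 4, 4, 0, 7], [0, 1, 2, 3, 4, 5, 6, 7, 8])]),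
   ([0, 1, 2, 2, 1, 0, 6], [([0, 1, 2, 2, 1, 0, 6, 0], [0, 1, 2, 3, 4, 5, 6, 7, 8]), ([0, 1, 2, 2, 1, 1, 0, 7], [0, 1, 2, 3, 4, 5, 7, 8, 6]), ([0, 1, 2, 2, 2, 1, 0, 7], [0, 1, 2, 3, 4, 6, 7, 8, 5]), ([0, 1, 2, 1, 0, 5, 6, 0], [5, 0, 1, 2, 4, 8, 6, 7, 3]), ([0, 1, 2, 1, 0, 5, 6, 0], [5, 0, 1, 4, 2, 8, 6, 7, 3]), ([0, 1, 2, 2, 1, 5, 0, 7], [0, 1, 2, 3, 4, 5, 7, 8, 6]), ([0, 1, 2, 2, 1, 0, 6, 6], [0, 1, 2, 3, 4, 5, 6, 7, 8]), ([0, 1, 2, 2, 1, 0, 6, 7], [0, 1, 2, 3, 4, 5, 6, 7, 8])]),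
   ([0, 1, 1, 0, 4, 0, 6], [([0, 1, 1, 0, 4, 0, 6, 0], [0, 1, 2, 3, 4, 5, 6, 7, 8]), ([0, 1, 1, 1, 0, 5, 0, 7], [0, 1, 2, 3, 5, 6, 7, 8, 4]), ([0, 1, 2, 1, 4, 0, 6, 0], [1, 0, 6, 8, 2, 3, 4, 5, 7]), ([0, 1, 2, 1, 4, 0, 6, 0], [1, 0, 8, 6, 2, 3, 4, 5, 7]), ([0, 1, 1, 0, 4, 4, 0, 7], [0, 1, 2, 3, 4, 5, 7, 8, 6]), ([0, 1, 2, 2, 1, 5, 0, 7], [1, 2, 3, 4, 0, 7, 5, 6, 8]), ([0, 1, 1, 0, 4, 4, 0, 7], [0, 1, 2, 3, 7, 8, 4, 5, 6]), ([0, 1, 2, 2, 1, 5, 0, 7], [1, 2, 3, 4, 5, 6, 0, 7, 8])]),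
   ([0, 1, 2, 0, 4, 5, 0], [([0, 1, 2, 0, 4, 5, 0, 0], [0, 1, 2, 3, 4, 5, 6, 7, 8]), ([0, 1, 2, 1, 0, 5, 6, 0], [0, 1, 2, 3, 5, 6, 7, 8, 4]), ([0, 1, 2, 2, 0, 5, 6, 0], [0, 1, 2, 3, 5, 6, 7, 8, 4]), ([0, 1, 2, 3, 1, 0, 6, 7], [1, 0, 6, 7, 2, 3, 4, 5, 8]), ([0, 1, 2, 1, 0, 5, 6, 0], [0, 5, 6, 7, 1, 2, 3, 8, 4]), ([0, 1, 2, 2, 0, 5, 6, 0], [0, 5, 6, 7, 1, 2, 3, 8, 4]), ([0, 1, 2, 3, 1, 0, 6, 7], [1, 2, 3, 4, 0, 6, 7, 5, 8]), ([0, 1, 2, 0, 4, 5, 0, 7], [0, 1, 2, 3, 4, 5, 6, 7, 8])]),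
   ([0, 1, 2, 1, 4, 0, 6], [([0, 1, 2, 1, 4, 0, 6, 0], [0, 1, 2, 3, 4, 5, 6, 7, 8]), ([0, 1, 2, 1, 4, 1, 0, 7], [0, 1, 2, 3, 4, 5, 7, 8, 6]), ([0, 1, 2, 2, 1, 5, 0, 7], [0, 1, 2, 3, 5, 6, 7, 8, 4]), ([0, 1, 2, 0, 4, 5, 0, 7], [1, 0, 4, 5, 7, 8, 2, 3, 6]), ([0, 1, 2, 2, 1, 5, 0, 7], [0, 1, 5, 6, 2, 3, 7, 8, 4]), ([0, 1, 2, 0, 4, 5, 0, 7], [1, 0, 7, 8, 4, 5, 2, 3, 6]), ([0, 1, 2, 2, 0, 5, 0, 7], [1, 0, 5, 6, 7, 8, 2, 3, 4]), ([0, 1, 2, 1, 4, 0, 6, 7], [0, 1, 2, 3, 4, 5, 6, 7, 8])]),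
   ([0, 1, 2, 2, 0, 5, 0], [([0, 1, 2, 2, 0, 5, 0, 0], [0, 1, 2, 3, 4, 5, 6, 7, 8]), ([0, 1, 2, 2, 1, 0, 6, 0], [0, 1, 2, 3, 4, 6, 7, 8, 5]), ([0, 1, 2, 2, 2, 0, 6, 0], [0, 1, 2, 3, 4, 6, 7, 8, 5]), ([0, 1, 2, 1, 0, 5, 6, 5], [1, 0, 5, 6, 8, 2, 3, 4, 7]), ([0, 1, 2, 1, 0, 5, 6, 5], [1, 0, 5, 8, 6, 2, 3, 4, 7]), ([0, 1, 2, 2, 1, 0, 6, 6], [1, 0, 6, 7, 8, 2, 3, 5, 4]), ([0, 1, 2, 2, 0, 5, 6, 0], [0, 1, 2, 3, 4, 5, 6, 8, 7]), ([0, 1, 2, 2, 0, 5, 0, 7], [0, 1, 2, 3, 4, 5, 6, 7, 8])]),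
   ([0, 1, 2, 1, 0, 5, 6], [([0, 1, 2, 1, 0, 5, 6, 0], [0, 1, 2, 3, 4, 5, 6, 7, 8]), ([0, 1, 2, 1, 1, 0, 6, 7], [0, 1, 2, 3, 4, 6, 7, 8, 5]), ([0, 1, 2, 2, 1, 0, 6, 7], [0, 1, 2, 3, 5, 6, 7, 8, 4]), ([0, 1, 2, 3, 1, 0, 6, 7], [0, 1, 2, 3, 5, 6, 7, 8, 4]), ([0, 1, 2, 1, 4, 0, 6, 7], [0, 1, 2, 3, 4, 6, 7, 8, 5]), ([0, 1, 2, 1, 0, 5, 6, 5], [0, 1, 2, 3, 4, 5, 6, 7, 8]), ([0, 1, 2, 2, 0, 5, 6, 5], [0, 5, 6, 7, 8, 1, 2, 3, 4]), ([0, 1, 2, 3, 2, 0, 6, 7], [1, 2, 3, 4, 5, 0, 6, 7, 8])]),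
   ([0, 1, 2, 2, 0, 5, 5], [([0, 1, 2, 2, 1, 0, 6, 6], [1, 0, 6, 7, 8, 2, 3, 4, 5]), ([0, 1, 2, 2, 1, 0, 6, 6], [0, 1, 2, 3, 4, 6, 7, 8, 5]), ([0, 1, 2, 2, 2, 0, 6, 6], [0, 1, 2, 3, 4, 6, 7, 8, 5]), ([0, 1, 2, 2, 0, 5, 6, 5], [1, 0, 5, 6, 8, 2, 3, 4, 7]), ([0, 1, 2, 2, 0, 5, 6, 5], [1, 0, 5, 8, 6, 2, 3, 4, 7]), ([0, 1, 2, 2, 2, 0, 6, 6], [1, 0, 6, 7, 8, 2, 3, 4, 5]), ([0, 1, 2, 2, 0, 5, 6, 5], [0, 1, 2, 3, 4, 5, 6, 8, 7]), ([0, 1, 2, 2, 0, 5, 6, 5], [0, 1, 2, 3, 4, 5, 8, 6, 7])]),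
   ([0, 1, 2, 2, 0, 5, 6], [([0, 1, 2, 2, 0, 5, 6, 0], [0, 1, 2, 3, 4, 5, 6, 7, 8]), ([0, 1, 2, 2, 1, 0, 6, 7], [0, 1, 2, 3, 4, 6, 7, 8, 5]), ([0, 1, 2, 2, 2, 0, 6, 7], [0, 1, 2, 3, 4, 6, 7, 8, 5]), ([0, 1, 2, 3, 2, 0, 6, 7], [0, 1, 2, 3, 5, 6, 7, 8, 4]), ([0, 1, 2, 3, 2, 0, 6, 7], [0, 1, 2, 5, 3, 6, 7, 8, 4]), ([0, 1, 2, 2, 0, 5, 6, 5], [0, 1, 2, 3, 4, 5, 6, 7, 8]), ([0, 1, 2, 2, 0, 5, 6, 6], [0, 1, 2, 3, 4, 5, 6, 7, 8]), ([0, 1, 2, 3, 3, 0, 6, 7], [1, 2, 3, 4, 5, 0, 6, 7, 8])]),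
   ([0, 1, 2, 3, 0, 5, 6], [([0, 1, 2, 3, 1, 0, 6, 7], [1, 0, 6, 7, 8, 2, 3, 4, 5]), ([0, 1, 2, 3, 1, 0, 6, 7], [0, 1, 2, 3, 4, 6, 7, 8, 5]), ([0, 1, 2, 3, 2, 0, 6, 7], [0, 1, 2, 3, 4, 6, 7, 8, 5]), ([0, 1, 2, 3, 3, 0, 6, 7], [0, 1, 2, 3, 4, 6, 7, 8, 5]), ([0, 1, 2, 3, 0, 5, 6, 7], [1, 0, 5, 6, 7, 2, 3, 4, 8]), ([0, 1, 2, 3, 2, 0, 6, 7], [1, 0, 6, 7, 8, 2, 3, 4, 5]), ([0, 1, 2, 3, 3, 0, 6, 7], [1, 0, 6, 7, 8, 2, 3, 4, 5]), ([0, 1, 2, 3, 0, 5, 6, 7], [0, 1, 2, 3, 4, 5, 6, 7, 8])])]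

/-- trees with 8 edges -/
def L8 : List (List ℕ) :=
  [[0, 0, 0, 0, 0, 0, 0, 0],
   [0, 1, 1, 1, 1, 1, 1, 0],
   [0, 1, 1, 1, 1, 1, 0, 0],
   [0, 1, 0, 3, 0, 0, 0, 0],
   [0, 1, 1, 1, 1, 1, 0, 7],
   [0, 1, 1, 1, 1, 0, 0, 0],
   [0, 1, 1, 0, 4, 0, 0, 0],
   [0, 1, 1, 1, 1, 0, 6, 0],
   [0, 1, 2, 1, 1, 1, 0, 7],
   [0, 1, 0, 3, 0, 5, 0, 0],
   [0, 1, 1, 1, 1, 0, 6, 6],
   [0, 1, 2, 2, 2, 2, 0, 7],
   [0, 1, 1, 1, 0, 5, 0, 0],
   [0, 1, 2, 1, 1, 0, 6, 0],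
   [0, 1, 1, 0, 4, 4, 0, 0],
   [0, 1, 2, 2, 1, 1, 0, 7],
   [0, 1, 1, 0, 4, 0, 6, 0],
   [0, 1, 1, 1, 0, 5, 5, 0],
   [0, 1, 2, 2, 2, 1, 0, 7],
   [0, 1, 1, 1, 0, 5, 0, 7],
   [0, 1, 2, 0, 4, 5, 0, 0],
   [0, 1, 2, 1, 4, 1, 0, 7],
   [0, 1, 2, 2, 0, 5, 0, 0],
   [0, 1, 2, 1, 1, 0, 6, 7],
   [0, 1, 0, 3, 0, 5, 0, 7],
   [0, 1, 1, 1, 0, 5, 5, 5],
   [0, 1, 2, 2, 2, 0, 6, 0],
   [0, 1, 2, 2, 2, 0, 6, 6],
   [0, 1, 2, 2, 2, 0, 6, 7],
   [0, 1, 2, 2, 1, 0, 6, 0],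
   [0, 1, 2, 1, 0, 5, 6, 0],
   [0, 1, 2, 1, 4, 0, 6, 0],
   [0, 1, 1, 0, 4, 4, 0, 7],
   [0, 1, 2, 2, 1, 5, 0, 7],
   [0, 1, 2, 2, 1, 0, 6, 6],
   [0, 1, 2, 2, 1, 0, 6, 7],
   [0, 1, 2, 2, 0, 5, 6, 0],
   [0, 1, 2, 3, 1, 0, 6, 7],
   [0, 1, 2, 0, 4, 5, 0, 7],
   [0, 1, 2, 2, 0, 5, 0, 7],
   [0, 1, 2, 1, 4, 0, 6, 7],
   [0, 1, 2, 1, 0, 5, 6, 5],
   [0, 1, 2, 2, 0, 5, 6, 5],
   [0, 1, 2, 3, 2, 0, 6, 7],
   [0, 1, 2, 2, 0, 5, 6, 6],
   [0, 1, 2, 3, 3, 0, 6, 7],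
   [0, 1, 2, 3, 0, 5, 6, 7]]


theorem av1_le_of_list (k : ℕ) (L : List (List ℕ)) (hC : Covers (k + 2) L)
    (hV : validCheck (k + 2) L = true) (hF : finCheck k L = true)
    (G T : SimpleGraph (Fin (k + 3))) [DecidableRel G.Adj] (hG : ∃ u v w, IsRType G u v w)
    (hT : T.IsTree) : av1 T ≤ av1 G := by
  obtain ⟨u, v, w, h⟩ := hG
  have hm : Fintype.card (Fin (k + 3)) = k + 3 := Fintype.card_fin _
  have h1 := rtype_sigma1 h k hm
  have h2 := rtype_totalSize h k hm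
  obtain ⟨l, hl, hlen, ⟨e⟩⟩ := hC (Fin (k + 3)) T hT hm
  have hval := (valid_of_check hV) l hl
  have h3 := stat_spec hval.1 hval.2
  unfold finCheck at hF
  rw [List.all_eq_true] at hF
  have h4 := hF l hl
  simp only [Bool.and_eq_true, decide_eq_true_eq] at h4
  rw [h3] at h4
  simp only at h4
  have e1 : sigma1 T = sigma1 (ofPar (k + 2 + 1) l) := sigma1_iso e
  have e2 : totalSize T = totalSize (ofPar (k + 2 + 1) l) := totalSize_iso e
  rw [← e1, ← e2] at h4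
  obtain ⟨h5, h6⟩ := h4
  have hGpos : (0 : ℤ) < sigma1 G := by rw [h1]; positivity
  have hGpos' : (0 : ℚ) < sigma1 G := by exact_mod_cast hGpos
  have hTpos : (0 : ℚ) < sigma1 T := by exact_mod_cast h5
  unfold av1
  rw [div_le_div_iff₀ hTpos hGpos']
  have h1' : (sigma1 G : ℚ) = 2 ^ k + 2 * k + 1 := by exact_mod_cast h1
  have h2' : 2 * (totalSize G : ℚ) = (k + 4) * 2 ^ k + 10 * k + 4 := by exact_mod_cast h2
  have h6' : 2 * (totalSize T : ℚ) * (2 ^ k + 2 * k + 1) ≤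
    ((k + 4) * 2 ^ k + 10 * k + 4) * (sigma1 T : ℚ) := by exact_mod_cast h6
  rw [h1']
  rw [← h2'] at h6'
  linarith

end enumeration

theorem R_rtype (n : ℕ) (hn : 4 ≤ n) : ∃ u v w, IsRType (R n) u v w := by
  refine ⟨⟨n - 1, by omega⟩, ⟨n - 2, by omega⟩, ⟨0, by omega⟩, ?_, ?_, ?_, ?_⟩
  · intro h; have := congrArg Fin.val h; simp only at this; omega
  · intro h; have := congrArg Fin.val h; simp only at this; omega
  · intro h; have := congrArg Fin.val h; simp only at this; omega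
  · intro x y
    have hx := x.2
    have hy := y.2
    simp only [R, SimpleGraph.fromRel_adj, ne_eq, Fin.ext_iff]
    omega

theorem isTree_of_rtype {V : Type*} [Fintype V] [DecidableEq V] {G : SimpleGraph V}
    {u v w : V} (h : IsRType G u v w) : G.IsTree := by
  classical
  obtain ⟨huv, huw, hvw, adj⟩ := h
  have hvwA : G.Adj v w := by
    rw [adj]; exact Or.inr (Or.inr (Or.inr ⟨rfl, hvw, huv.symm⟩))
  have huvA : G.Adj u v := by rw [adj]; exact Or.inl ⟨rfl, rfl⟩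
  have hconn : G.Connected := by
    have : ∀ x, G.Reachable x w := by
      intro x
      by_cases hxw : x = w
      · rw [hxw]
      · by_cases hxu : x = u
        · rw [hxu]; exact huvA.reachable.trans hvwA.reachable
        · have : G.Adj x w := by
            rw [adj]; exact Or.inr (Or.inr (Or.inr ⟨rfl, hxw, hxu⟩))
          exact this.reachable
    have : Nonempty V := ⟨u⟩
    exact ⟨fun x y => (‹∀ x, G.Reachable x w› x).trans (‹∀ x, G.Reachable x w› y).symm⟩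
  rw [SimpleGraph.isTree_iff_connected_and_card]
  refine ⟨hconn, ?_⟩
  -- count edges through the parent map
  let par : V → V := fun x => if x = u then v else w
  have hedge : G.edgeSet = (fun x => s(x, par x)) '' {x | x ≠ w} := by
    ext e
    induction e using Sym2.ind with
    | _ a b =>
      rw [SimpleGraph.mem_edgeSet, adj]
      simp only [Set.mem_image, ne_eq, Sym2.eq_iff, par]
      constructor
      · rintro (⟨rfl, rfl⟩ | ⟨rfl, rfl⟩ | ⟨rfl, h1, h2⟩ | ⟨rfl, h1, h2⟩)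
        · exact ⟨a, huw, Or.inl ⟨rfl, by rw [if_pos rfl]⟩⟩
        · exact ⟨b, huw, Or.inr ⟨rfl, by rw [if_pos rfl]⟩⟩
        · exact ⟨b, h1, Or.inr ⟨rfl, by rw [if_neg h2]⟩⟩
        · exact ⟨a, h1, Or.inl ⟨rfl, by rw [if_neg h2]⟩⟩
      · rintro ⟨x, hx, ⟨rfl, h⟩ | ⟨rfl, h⟩⟩
        · by_cases hxu : x = u
          · rw [if_pos hxu] at h; exact Or.inl ⟨hxu, h.symm⟩
          · rw [if_neg hxu] at h; exact Or.inr (Or.inr (Or.inr ⟨h.symm, hx, hxu⟩))
        · by_cases hxu : x = u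
          · rw [if_pos hxu] at h; exact Or.inr (Or.inl ⟨h.symm, hxu⟩)
          · rw [if_neg hxu] at h; exact Or.inr (Or.inr (Or.inl ⟨h.symm, hx, hxu⟩))
  have hinj : Set.InjOn (fun x => s(x, par x)) {x | x ≠ w} := by
    intro a ha b hb hab
    simp only [ne_eq, Set.mem_ofPred_eq] at ha hb
    simp only [Sym2.eq_iff, par] at hab
    rcases hab with ⟨h1, _⟩ | ⟨h1, h2⟩
    · exact h1
    · by_cases hbu : b = u
      · rw [if_pos hbu] at h1
        by_cases hau : a = u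
        · rw [hau, hbu]
        · rw [if_neg hau] at h2; exact absurd h2.symm hb
      · rw [if_neg hbu] at h1; exact absurd h1 ha
  rw [Nat.card_coe_set_eq, hedge, Set.InjOn.ncard_image hinj]
  have : {x | x ≠ w} = (({w} : Finset V) : Set V)ᶜ := by ext x; simp
  rw [this, Set.ncard_compl, Set.ncard_coe_finset, Finset.card_singleton]
  have : 0 < Nat.card V := Nat.card_pos_iff.2 ⟨⟨u⟩, inferInstance⟩
  omega

/-- For every `n ≥ 4` the tree `R_n` attains the maximum of `av1` over all trees on `n`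
vertices. -/
theorem main : ∀ n : ℕ, 4 ≤ n →
    (R n).IsTree ∧ ∀ T : SimpleGraph (Fin n), T.IsTree → av1 T ≤ av1 (R n) := by
  classical
  intro n hn
  refine ⟨?_, ?_⟩
  · obtain ⟨u, v, w, h⟩ := R_rtype n hn
    exact isTree_of_rtype h
  · intro T hT
    have hR := R_rtype n hn
    by_cases h10 : 10 ≤ n
    · exact av1_le_of_rtype_ten (R n) T (by rw [Fintype.card_fin]; exact h10) hR hT
    · have c0 : Covers 0 (D0.map Prod.fst) := covers_zero
      have c1 : Covers 1 (D1.map Prod.fst) :=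
        covers_step c0 (by decide +kernel) (by decide +kernel) (by decide +kernel)
      have c2 : Covers 2 (D2.map Prod.fst) :=
        covers_step c1 (by decide +kernel) (by decide +kernel) (by decide +kernel)
      have c3 : Covers 3 (D3.map Prod.fst) :=
        covers_step c2 (by decide +kernel) (by decide +kernel) (by decide +kernel)
      have c4 : Covers 4 (D4.map Prod.fst) :=
        covers_step c3 (by decide +kernel) (by decide +kernel) (by decide +kernel)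
      have c5 : Covers 5 (D5.map Prod.fst) :=
        covers_step c4 (by decide +kernel) (by decide +kernel) (by decide +kernel)
      have c6 : Covers 6 (D6.map Prod.fst) :=
        covers_step c5 (by decide +kernel) (by decide +kernel) (by decide +kernel)
      have c7 : Covers 7 (D7.map Prod.fst) :=
        covers_step c6 (by decide +kernel) (by decide +kernel) (by decide +kernel)
      have c8 : Covers 8 L8 :=
        covers_step c7 (by decide +kernel) (by decide +kernel) (by decide +kernel)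
      have hcases : n = 4 ∨ n = 5 ∨ n = 6 ∨ n = 7 ∨ n = 8 ∨ n = 9 := by omega
      rcases hcases with rfl | rfl | rfl | rfl | rfl | rfl
      · exact av1_le_of_list 1 _ c3 (by decide +kernel) (by decide +kernel) _ T hR hT
      · exact av1_le_of_list 2 _ c4 (by decide +kernel) (by decide +kernel) _ T hR hT
      · exact av1_le_of_list 3 _ c5 (by decide +kernel) (by decide +kernel) _ T hR hT
      · exact av1_le_of_list 4 _ c6 (by decide +kernel) (by decide +kernel) _ T hR hT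
      · exact av1_le_of_list 5 _ c7 (by decide +kernel) (by decide +kernel) _ T hR hT
      · exact av1_le_of_list 6 _ c8 (by decide +kernel) (by decide +kernel) _ T hR hT

end Pool.Agent.Helper24.StarSubdiv
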